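import Pool.Agent.X90.DC.Conv

/-!
# General patterns
-/

set_option autoImplicit false

namespace Pool.Agent.X90.DC

open Finset Pool.Agent.Y760.ZF
open Pool.Agent.Y760.ZG (mz)
open Pool.Agent.X90.DA (fx eval_fx)
open Pool.Agent.X90.DB (Ad ex ex_nil ex_ne ad_ne ix)

/-- the relations between the numbers `x` and multiple zeta values of weight at most `Wt` hold for `y` and `Z` -/
def Rel {t : ℕ} (Wt : ℕ) (x : Fin t → ℂ) {A : Type} [CommRing A] (y : Fin t → A)
    (Z : List ℕ → A) : Prop :=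
  ∀ Q : MvPolynomial (Fin t ⊕ {p : List ℕ // Ad p ∧ p.sum ≤ Wt}) ℤ,
    MvPolynomial.aeval (Sum.elim x fun p => ((mz p.1 : ℝ) : ℂ)) Q = 0 →
    MvPolynomial.aeval (Sum.elim y fun p => Z p.1) Q = 0

lemma sum_list {α A : Type} [AddCommMonoid A] (L : List α) (f : α → A) :
    (L.map f).sum = ∑ j : Fin L.length, f (L.get j) := by
  rw [← List.sum_ofFn]
  congr 1
  conv_lhs => rw [← List.ofFn_get L]
  rw [List.map_ofFn]
  rfl

/-- substitution in polynomials of bounded degree -/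
lemma subst_bound {σ τ : Type} [Fintype σ] [DecidableEq σ] (G : σ → MvPolynomial τ ℤ) (D : ℕ) :
    ∃ (D' : ℕ) (S : ℝ), 0 ≤ S ∧ ∀ P : MvPolynomial σ ℤ, P.totalDegree ≤ D →
      (MvPolynomial.aeval G P : MvPolynomial τ ℤ).totalDegree ≤ D' ∧
      ∀ H : ℝ, 0 ≤ H → (∀ m, |((P.coeff m : ℤ) : ℝ)| ≤ H) →
        ∀ m, |(((MvPolynomial.aeval G P : MvPolynomial τ ℤ).coeff m : ℤ) : ℝ)| ≤ H * S := by
  classical
  set Mo : (σ → Fin (D + 1)) → MvPolynomial τ ℤ := fun e => ∏ i, G i ^ ((e i : Fin (D + 1)) : ℕ)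
    with hMo
  refine ⟨∑ e, (Mo e).totalDegree, ∑ e, ∑ m ∈ (Mo e).support, |(((Mo e).coeff m : ℤ) : ℝ)|,
    by positivity, fun P hP => ?_⟩
  have h1 := eval_fx hP G
  rw [h1]
  have h2 : ∀ e : σ → Fin (D + 1), ((P.coeff (fx e) : ℤ) : MvPolynomial τ ℤ) *
      ∏ i, G i ^ ((e i : Fin (D + 1)) : ℕ) = MvPolynomial.C (P.coeff (fx e)) * Mo e := by
    intro e
    rw [hMo, ← map_intCast (MvPolynomial.C : ℤ →+* MvPolynomial τ ℤ), Int.cast_id]
  simp only [h2]
  constructor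
  · refine MvPolynomial.totalDegree_finsetSum_le fun e _ => ?_
    refine (MvPolynomial.totalDegree_mul _ _).trans ?_
    rw [MvPolynomial.totalDegree_C, zero_add]
    exact single_le_sum (f := fun e => (Mo e).totalDegree) (fun _ _ => Nat.zero_le _) (mem_univ e)
  · intro H hH0 hH m
    rw [MvPolynomial.coeff_sum]
    push_cast
    refine (abs_sum_le_sum_abs _ _).trans ?_
    rw [mul_sum]
    refine sum_le_sum fun e _ => ?_
    rw [MvPolynomial.coeff_C_mul]
    push_cast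
    rw [abs_mul]
    refine mul_le_mul (hH _) ?_ (abs_nonneg _) hH0
    by_cases hm : m ∈ (Mo e).support
    · exact single_le_sum (f := fun m => |(((Mo e).coeff m : ℤ) : ℝ)|) (fun _ _ => abs_nonneg _) hm
    · rw [MvPolynomial.notMem_support_iff.1 hm]
      simp only [Int.cast_zero, abs_zero]
      exact sum_nonneg fun _ _ => abs_nonneg _

/-- **few tuples with exceptional relations, general patterns** -/
theorem gen (t k r D : ℕ) (w : Fin r → List (Lr k)) (hw : ∀ i, Ge (w i)) (Wt : ℕ)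
    (hWt : ∀ i, fw (w i) ≤ Wt) (κ : ℕ) :
    ∃ K : ℕ, ∀ (C : ℝ) (x : Fin t → ℂ), ∃ N0 : ℕ, ∀ N : ℕ, N0 ≤ N → ∀ B : Finset (Fin k → ℕ),
      (∀ s ∈ B, (∀ j, N ≤ s j ∧ s j ≤ κ * N) ∧
        ∃ P : MvPolynomial (Fin t ⊕ Fin r) ℤ, P.totalDegree ≤ D ∧
          (∀ m, |((P.coeff m : ℤ) : ℝ)| ≤ C ^ N) ∧
          MvPolynomial.aeval (Sum.elim x fun i => ((mz (ix s (w i)) : ℝ) : ℂ)) P = 0 ∧
          ¬ ∀ (A : Type) [CommRing A] [Algebra ℚ A] (y : Fin t → A) (Z : List ℕ → A),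
            Rel Wt x y Z → (∀ u v, Ad u → Ad v → Z u * Z v = ((sti u v).map Z).sum) →
            MvPolynomial.aeval (Sum.elim y fun i => ex Z (ix s (w i))) P = 0) →
      B.card ≤ K * N ^ (k - 1) := by
  classical
  -- the decompositions
  have h1 : ∀ i, ∃ L : List (ℤ × List ℕ × List (Lr k)),
      (∀ e ∈ L, (e.2.1 = [] ∨ Ad e.2.1) ∧ e.2.1.sum ≤ Wt ∧ Gd e.2.2) ∧
      ∀ (A : Type) [CommRing A] (Z : List ℕ → A),
        (∀ u v, Ad u → Ad v → Z u * Z v = ((sti u v).map Z).sum) →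
        ∀ s : Fin k → ℕ, (∀ j, 2 ≤ s j) → ex Z (ix s (w i)) =
          (L.map fun e => (e.1 : A) * (ex Z e.2.1 * ex Z (ix s e.2.2))).sum := by
    intro i
    obtain ⟨p, v, -, h2, h3, h4⟩ := exists_prefix (w i) (hw i).2
    obtain ⟨L, hL1, hL2⟩ := dec p.length p le_rfl (ge_prefix (h3 ▸ hw i)) v h2
    refine ⟨L, fun e he => ?_, fun A _ Z hZ s hs => ?_⟩
    · obtain ⟨g1, g2, g3⟩ := hL1 e he
      exact ⟨g1, g2.trans (h4 ▸ hWt i), g3⟩
    · rw [h3, ix_append, ix_fp]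
      exact hL2 A Z hZ s hs
  choose L hL1 hL2 using h1
  -- the variables
  set J : Type := Σ i : Fin r, Fin (L i).length with hJ
  set m : ℕ := Fintype.card J with hm
  let e : J ≃ Fin m := Fintype.equivFin J
  let val : Fin m → ℤ × List ℕ × List (Lr k) := fun j => (L (e.symm j).1).get (e.symm j).2
  have hval : ∀ j, ((val j).2.1 = [] ∨ Ad (val j).2.1) ∧ (val j).2.1.sum ≤ Wt ∧ Gd (val j).2.2 :=
    fun j => hL1 _ _ (List.get_mem _ _)
  have hvale : ∀ (i : Fin r) (j : Fin (L i).length), val (e ⟨i, j⟩) = (L i).get j := by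
    intro i j
    show (L (e.symm (e ⟨i, j⟩)).1).get (e.symm (e ⟨i, j⟩)).2 = _
    rw [e.symm_apply_apply]
  obtain ⟨G, hG1, hG2⟩ : ∃ G : Fin t ⊕ Fin r → MvPolynomial (Fin (t + m) ⊕ Fin m) ℤ,
      (∀ (A : Type) [CommRing A] (X' : Fin (t + m) → A) (Y' : Fin m → A) (j : Fin t),
        MvPolynomial.aeval (Sum.elim X' Y') (G (Sum.inl j)) = X' (Fin.castAdd m j)) ∧
      (∀ (A : Type) [CommRing A] (X' : Fin (t + m) → A) (Y' : Fin m → A) (i : Fin r),
        MvPolynomial.aeval (Sum.elim X' Y') (G (Sum.inr i)) = ∑ j : Fin (L i).length,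
          ((((L i).get j).1 : ℤ) : A) * (X' (Fin.natAdd t (e ⟨i, j⟩)) * Y' (e ⟨i, j⟩))) := by
    refine ⟨Sum.elim (fun j => MvPolynomial.X (Sum.inl (Fin.castAdd m j)))
      (fun i => ∑ j : Fin (L i).length, ((((L i).get j).1 : ℤ) : MvPolynomial _ ℤ) *
        (MvPolynomial.X (Sum.inl (Fin.natAdd t (e ⟨i, j⟩))) * MvPolynomial.X (Sum.inr (e ⟨i, j⟩)))),
      fun A _ X' Y' j => ?_, fun A _ X' Y' i => ?_⟩
    · simp
    · simp
  obtain ⟨D', S, hS, hsub⟩ := subst_bound G D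
  obtain ⟨K, hK⟩ := few (t + m) k m D' (fun j => (val j).2.2) (fun j => (hval j).2.2) κ
  refine ⟨K, fun C x => ?_⟩
  set x' : Fin (t + m) → ℂ := Fin.append x fun j => ((mz (val j).2.1 : ℝ) : ℂ) with hx'
  obtain ⟨N0, hN0⟩ := hK ((1 + |C|) * (1 + S)) x'
  refine ⟨N0 + 2, fun N hN B hB => hN0 N (by omega) B fun s hs => ?_⟩
  obtain ⟨hs1, P, hPD, hPC, hP0, hPne⟩ := hB s hs
  have hs2 : ∀ j, 2 ≤ s j := fun j => le_trans (by omega) (hs1 j).1
  -- the value of the new polynomial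
  have hcomp : ∀ (A : Type) [CommRing A] (y : Fin t → A) (Z : List ℕ → A),
      (∀ u v, Ad u → Ad v → Z u * Z v = ((sti u v).map Z).sum) →
      MvPolynomial.aeval (Sum.elim (Fin.append y fun j => ex Z (val j).2.1)
        fun j => ex Z (ix s (val j).2.2)) (MvPolynomial.aeval G P : MvPolynomial _ ℤ) =
      MvPolynomial.aeval (Sum.elim y fun i => ex Z (ix s (w i))) P := by
    intro A _ y Z hZ
    rw [← AlgHom.comp_apply]
    congr 1
    refine MvPolynomial.algHom_ext fun i => ?_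
    rw [AlgHom.comp_apply, MvPolynomial.aeval_X, MvPolynomial.aeval_X]
    cases i with
    | inl j =>
      rw [hG1, Fin.append_left]
      rfl
    | inr i =>
      rw [hG2, Sum.elim_inr, hL2 i A Z hZ s hs2, sum_list]
      refine sum_congr rfl fun j _ => ?_
      rw [Fin.append_right, hvale]
  refine ⟨hs1, MvPolynomial.aeval G P, (hsub P hPD).1, fun m' => ?_, ?_, fun hT => hPne ?_⟩
  · have hCN : ∀ m, |((P.coeff m : ℤ) : ℝ)| ≤ |C| ^ N := fun m =>
        (hPC m).trans ((le_abs_self _).trans (abs_pow _ _).le)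
    refine ((hsub P hPD).2 (|C| ^ N) (by positivity) hCN m').trans ?_
    rw [mul_pow]
    refine mul_le_mul (pow_le_pow_left₀ (abs_nonneg _) (by linarith) _) ?_ hS (by positivity)
    exact (by linarith : S ≤ 1 + S).trans (le_self_pow₀ (by linarith) (by omega))
  · have h2 := hcomp ℂ x (fun u => ((mz u : ℝ) : ℂ)) mz_stuffle_C
    simp only [ex_mz] at h2
    rw [hx', h2, hP0]
  · intro A _ _ y Z hR hZ
    rw [← hcomp A y Z hZ]
    refine hT A _ Z (fun Q hQ => ?_) hZ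
    -- the relations
    set ψ : Fin (t + m) → MvPolynomial (Fin t ⊕ {p : List ℕ // Ad p ∧ p.sum ≤ Wt}) ℤ :=
      Fin.append (fun j => MvPolynomial.X (Sum.inl j)) fun j =>
        if h : Ad (val j).2.1 then MvPolynomial.X (Sum.inr ⟨(val j).2.1, h, (hval j).2.1⟩) else 1
      with hψ
    have hψ' : ∀ (A : Type) [CommRing A] (y : Fin t → A) (Z : List ℕ → A),
        MvPolynomial.aeval (Sum.elim y fun p : {p : List ℕ // Ad p ∧ p.sum ≤ Wt} => Z p.1)
          (MvPolynomial.aeval ψ Q : MvPolynomial _ ℤ) =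
        MvPolynomial.aeval (Fin.append y fun j => ex Z (val j).2.1) Q := by
      intro A _ y Z
      rw [← AlgHom.comp_apply]
      congr 1
      refine MvPolynomial.algHom_ext fun i => ?_
      rw [AlgHom.comp_apply, MvPolynomial.aeval_X, MvPolynomial.aeval_X]
      refine Fin.addCases (fun j => ?_) (fun j => ?_) i
      · rw [hψ, Fin.append_left, Fin.append_left, MvPolynomial.aeval_X, Sum.elim_inl]
      · rw [hψ, Fin.append_right, Fin.append_right]
        rcases (hval j).1 with h | h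
        · rw [dif_neg (by rw [h]; exact id), map_one, h, ex_nil]
        · rw [dif_pos h, MvPolynomial.aeval_X, Sum.elim_inr, ex_ne Z (ad_ne h)]
    rw [← hψ']
    refine hR _ ?_
    rw [hψ' ℂ x fun u => ((mz u : ℝ) : ℂ)]
    simp only [ex_mz]
    exact hQ

end Pool.Agent.X90.DC
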