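import Pool.Agent.X90.DC.Ind

/-!
# Tools for the equivalences
-/

set_option autoImplicit false

namespace Pool.Agent.X90.DC

open Finset Pool.Agent.Y760.ZF
open Pool.Agent.Y760.ZG (mz)
open Pool.Agent.X90.DB (Ad ex ix card_plane)

/-- the box -/
def bx (k κ N : ℕ) : Finset (Fin k → ℕ) := Fintype.piFinset fun _ : Fin k => Finset.Icc N (κ * N)

lemma mem_bx {k κ N : ℕ} {s : Fin k → ℕ} : s ∈ bx k κ N ↔ ∀ j, N ≤ s j ∧ s j ≤ κ * N := by
  rw [bx, Fintype.mem_piFinset]
  exact forall_congr' fun j => mem_Icc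

/-- boxes are large -/
lemma bx_large {k κ : ℕ} (hk : 1 ≤ k) (hκ : 2 ≤ κ) (K N0 : ℕ) :
    ∃ N, N0 ≤ N ∧ 1 ≤ N ∧ K * N ^ (k - 1) < (bx k κ N).card := by
  refine ⟨N0 + K + 1, by omega, by omega, ?_⟩
  set N := N0 + K + 1 with hN
  rw [bx, Fintype.card_piFinset, prod_const, card_univ, Fintype.card_fin, Nat.card_Icc]
  have h1 : N + 1 ≤ κ * N + 1 - N := by
    have := Nat.mul_le_mul_right N hκ
    omega
  obtain ⟨k', rfl⟩ : ∃ k', k = k' + 1 := ⟨k - 1, by omega⟩
  rw [Nat.add_sub_cancel, pow_succ]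
  have h2 : N ^ k' ≤ (κ * N + 1 - N) ^ k' := Nat.pow_le_pow_left (by omega) _
  have h3 : 0 < N ^ k' := Nat.pow_pos (by omega)
  calc K * N ^ k' < (N + 1) * N ^ k' := Nat.mul_lt_mul_of_pos_right (by omega) h3
    _ = N ^ k' * (N + 1) := Nat.mul_comm _ _
    _ ≤ _ := Nat.mul_le_mul h2 h1

/-- few tuples are not injective -/
lemma card_noinj {k κ N : ℕ} (B : Finset (Fin k → ℕ)) (hB : ∀ s ∈ B, s ∈ bx k κ N ∧
    ¬ Function.Injective s) (hN : 1 ≤ N) : B.card ≤ k * k * κ ^ (k - 1) * N ^ (k - 1) := by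
  classical
  have h1 : B ⊆ (univ : Finset (Fin k × Fin k)).biUnion fun p => if p.1 = p.2 then ∅ else
      ((Fintype.piFinset fun _ : Fin k => Finset.Icc N (κ * N)).filter fun s =>
        ∑ j, ((Pi.single p.1 1 - Pi.single p.2 1 : Fin k → ℤ)) j * (s j : ℤ) = 0) := by
    intro s hs
    obtain ⟨h2, h3⟩ := hB s hs
    rw [Function.Injective] at h3
    push Not at h3
    obtain ⟨i, j, hij, hne⟩ := h3
    rw [mem_biUnion]
    refine ⟨(i, j), mem_univ _, ?_⟩
    rw [if_neg hne, mem_filter]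
    refine ⟨h2, ?_⟩
    simp only [Pi.sub_apply, sub_mul, sum_sub_distrib]
    rw [sum_eq_single i, sum_eq_single j]
    · rw [Pi.single_eq_same, Pi.single_eq_same, hij]
      ring
    · intro b _ hb
      rw [Pi.single_eq_of_ne hb, zero_mul]
    · intro h
      exact absurd (mem_univ _) h
    · intro b _ hb
      rw [Pi.single_eq_of_ne hb, zero_mul]
    · intro h
      exact absurd (mem_univ _) h
  refine (card_le_card h1).trans (card_biUnion_le.trans ?_)
  have h2 : ∀ p ∈ (univ : Finset (Fin k × Fin k)), (if p.1 = p.2 then (∅ : Finset (Fin k → ℕ)) else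
      ((Fintype.piFinset fun _ : Fin k => Finset.Icc N (κ * N)).filter fun s =>
        ∑ j, ((Pi.single p.1 1 - Pi.single p.2 1 : Fin k → ℤ)) j * (s j : ℤ) = 0)).card ≤
      κ ^ (k - 1) * N ^ (k - 1) := by
    intro p _
    split_ifs with h
    · simp
    · refine (card_plane N (κ * N) _ ?_ 0).trans ?_
      · intro h0
        have h1 := congrFun h0 p.1
        rw [Pi.sub_apply, Pi.single_eq_same, Pi.single_eq_of_ne h, Pi.zero_apply] at h1
        norm_num at h1
      · rw [← mul_pow]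
        exact Nat.pow_le_pow_left (by omega) _
  refine (sum_le_sum h2).trans ?_
  rw [sum_const, card_univ, Fintype.card_prod, Fintype.card_fin, smul_eq_mul, mul_assoc, mul_assoc,
    mul_assoc]

/-- all tuples have relations over an algebraic number -/
lemma exists_nonroot (q : Polynomial ℤ) (hq : q ≠ 0) : ∃ c : ℂ, Polynomial.aeval c q ≠ 0 := by
  by_contra h
  push Not at h
  apply hq
  have h1 : q.map (algebraMap ℤ ℂ) = 0 := by
    refine Polynomial.funext fun c => ?_
    rw [Polynomial.eval_map_algebraMap, h c, Polynomial.eval_zero]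
  exact (Polynomial.map_eq_zero_iff (RingHom.injective_int _)).1 h1

lemma exists_nonzero {σ : Type} (P : MvPolynomial σ ℤ) (hP : P ≠ 0) :
    ∃ c : σ → ℂ, MvPolynomial.aeval c P ≠ 0 := by
  by_contra h
  push Not at h
  apply hP
  have h1 : MvPolynomial.map (algebraMap ℤ ℂ) P = 0 := by
    refine MvPolynomial.funext fun c => ?_
    rw [MvPolynomial.eval_map, map_zero]
    exact h c
  exact (MvPolynomial.map_injective _ (RingHom.injective_int (algebraMap ℤ ℂ))) (by
    rw [h1, map_zero])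

/-- a univariate polynomial in the first variable -/
lemma first_var {n : ℕ} (q : Polynomial ℤ) (hq : q ≠ 0) : ∃ P : MvPolynomial (Fin (n + 1)) ℤ,
    P ≠ 0 ∧ (∃ H : ℝ, 1 ≤ H ∧ ∀ m, |((P.coeff m : ℤ) : ℝ)| ≤ H) ∧
    ∀ (A : Type) [CommRing A] (z : Fin (n + 1) → A), MvPolynomial.aeval z P =
      Polynomial.aeval (z 0) q := by
  classical
  set P : MvPolynomial (Fin (n + 1)) ℤ := Polynomial.aeval (MvPolynomial.X 0) q with hP
  have hev : ∀ (A : Type) [CommRing A] (z : Fin (n + 1) → A), MvPolynomial.aeval z P =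
      Polynomial.aeval (z 0) q := by
    intro A _ z
    rw [hP, ← Polynomial.aeval_algHom_apply, MvPolynomial.aeval_X]
  refine ⟨P, fun h0 => ?_, ⟨1 + ∑ m ∈ P.support, |((P.coeff m : ℤ) : ℝ)|,
    le_add_of_nonneg_right (by positivity), fun m => ?_⟩, hev⟩
  · obtain ⟨c, hc⟩ := exists_nonroot q hq
    apply hc
    have := hev ℂ (fun _ => c)
    rw [h0, map_zero] at this
    exact this.symm
  · by_cases hm : m ∈ P.support
    · have := single_le_sum (f := fun m => |((P.coeff m : ℤ) : ℝ)|) (fun _ _ => abs_nonneg _) hm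
      linarith
    · rw [MvPolynomial.notMem_support_iff.1 hm, Int.cast_zero, abs_zero]
      have : 0 ≤ ∑ m ∈ P.support, |((P.coeff m : ℤ) : ℝ)| := by positivity
      linarith

end Pool.Agent.X90.DC
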