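import Pool.Agent.X90.DC.Many

/-!
# Tuples in general position
-/

set_option autoImplicit false

namespace Pool.Agent.X90.DC

open Finset Pool.Agent.Y760.ZF
open Pool.Agent.X90.DB (GT Lt Lt_mono Lt_add Lt_ge Lt_zero)

lemma Lt_add_small {k : ℕ} {K K' : ℕ} {s : Fin k → ℕ} {a c : ℕ} (h : a ∈ Lt K s) (hc : c ≤ K') :
    a + c ∈ Lt (K + K') s := by
  obtain ⟨b, u, hb, hu, hne, rfl⟩ := h
  refine ⟨b + c, u, by omega, fun j => (hu j).trans (Nat.le_add_right _ _), hne, ?_⟩
  omega

/-- tuples in general position have letters in general position -/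
lemma gp {I : Type} [Fintype I] {k : ℕ} {Q K T : ℕ} {s : I → Fin k → ℕ} (h : GT Q s)
    (hQ : T + Fintype.card I * K ≤ Q) (hK : K ≤ Q) :
    GP T (fun i => Lt K (s i)) := by
  classical
  intro f g c d hc hd hf hg hsum i hi
  have key : ∀ f : I → ℕ, (∀ i, f i = 0 ∨ f i ∈ Lt K (s i)) →
      ∃ (b : I → ℕ) (u : I → Fin k → ℕ), (∀ i, b i ≤ K) ∧ (∀ i j, u i j ≤ K) ∧
        (∀ i, f i = b i + ∑ j, u i j * s i j) ∧ ∀ i, f i = 0 ↔ u i = 0 := by
    intro f hf
    have h1 : ∀ i, ∃ (b : ℕ) (u : Fin k → ℕ), b ≤ K ∧ (∀ j, u j ≤ K) ∧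
        f i = b + ∑ j, u j * s i j ∧ (f i = 0 ↔ u = 0) := by
      intro i
      by_cases h0 : f i = 0
      · exact ⟨0, 0, Nat.zero_le _, fun _ => Nat.zero_le _, by simp [h0], by simp [h0]⟩
      · obtain ⟨b, u, hb, hu, hne, ha⟩ := (hf i).resolve_left h0
        exact ⟨b, u, hb, hu, ha, iff_of_false h0 hne⟩
    choose b u h2 h3 h4 h5 using h1
    exact ⟨b, u, h2, h3, h4, h5⟩
  obtain ⟨b, u, hb, hu, hfb, hfu⟩ := key f hf
  obtain ⟨b', u', hb', hu', hgb, hgu⟩ := key g hg
  have h0 : ∀ j, u i j = 0 := fun j => congrFun ((hfu i).1 hi) j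
  -- the equation
  have hbd : |((c : ℤ) - d) + ∑ i, (((b i : ℕ) : ℤ) - (b' i : ℕ))| ≤ Q := by
    refine (abs_add_le _ _).trans ?_
    have h1 : |(c : ℤ) - d| ≤ T := by
      rw [abs_le]
      constructor <;> omega
    have h2 : |∑ i, (((b i : ℕ) : ℤ) - (b' i : ℕ))| ≤ (Fintype.card I * K : ℕ) := by
      refine (abs_sum_le_sum_abs _ _).trans ?_
      calc ∑ i, |((b i : ℕ) : ℤ) - (b' i : ℕ)| ≤ ∑ _i : I, (K : ℤ) := by
            refine sum_le_sum fun i _ => ?_
            have := hb i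
            have := hb' i
            rw [abs_le]
            constructor <;> omega
        _ = (Fintype.card I * K : ℕ) := by
            rw [sum_const, card_univ, nsmul_eq_mul]
            push_cast
            ring
    have h3 : ((T + Fintype.card I * K : ℕ) : ℤ) ≤ Q := by exact_mod_cast hQ
    push_cast at h2 h3
    linarith
  have hrel : ((c : ℤ) - d) + ∑ i, (((b i : ℕ) : ℤ) - (b' i : ℕ)) +
      ∑ i, ∑ j, ((((u i j : ℕ) : ℤ) - (u' i j : ℕ)) * (s i j : ℤ)) = 0 := by
    have h1 : ((c + ∑ i, f i : ℕ) : ℤ) = ((d + ∑ i, g i : ℕ) : ℤ) := by rw [hsum]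
    simp only [hfb, hgb] at h1
    push_cast at h1
    rw [sum_add_distrib, sum_add_distrib] at h1
    rw [sum_sub_distrib]
    have h2 : ∑ i, ∑ j, ((((u i j : ℕ) : ℤ) - (u' i j : ℕ)) * (s i j : ℤ)) =
        ∑ i, ∑ j, ((u i j : ℕ) : ℤ) * (s i j : ℤ) - ∑ i, ∑ j, ((u' i j : ℕ) : ℤ) * (s i j : ℤ) := by
      rw [← sum_sub_distrib]
      refine sum_congr rfl fun i _ => ?_
      rw [← sum_sub_distrib]
      exact sum_congr rfl fun j _ => by ring
    rw [h2]
    linarith
  by_contra hgi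
  have hne : (fun i j => ((u i j : ℕ) : ℤ) - (u' i j : ℕ)) ≠ (0 : I → Fin k → ℤ) := by
    intro h00
    apply hgi
    rw [hgu i]
    funext j
    have h1 := congrFun (congrFun h00 i) j
    have h2 := h0 j
    simp only [Pi.zero_apply] at h1 ⊢
    omega
  exact h _ _ hne hbd (fun i j => by
    have := hu i j
    have := hu' i j
    rw [abs_le]
    constructor <;> omega) hrel

/-- the words of a product of words -/
lemma stil_Hd {k K : ℕ} {s : Fin k → ℕ} (M : List (List ℕ)) (hM : ∀ u ∈ M, Hd (Lt K s) K u) :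
    ∀ x ∈ stil M, Hd (Lt (M.length * K) s) (M.length * K) x := by
  induction M with
  | nil =>
    intro x hx
    rw [stil, List.mem_singleton] at hx
    subst hx
    exact ⟨fun a ha => by simp at ha, fun a ha => absurd ha List.not_mem_nil⟩
  | cons u M ih =>
    intro x hx
    rw [stil, List.mem_flatMap] at hx
    obtain ⟨v, hv, hx⟩ := hx
    have h1 := ih (fun u hu => hM u (List.mem_cons_of_mem _ hu)) v hv
    have e : (u :: M).length * K = K + M.length * K := by
      rw [List.length_cons, Nat.succ_mul, add_comm]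
    rw [e]
    refine hd_sti (fun a ha => Lt_mono (Nat.le_add_right _ _) s ha)
      (fun a ha => Lt_mono (Nat.le_add_left _ _) s ha) (fun a ha b hb => Lt_add ha hb)
      (fun a ha b hb => Lt_add_small ha hb) (fun a ha b hb => ?_) le_rfl
      (hM u List.mem_cons_self) h1 x hx
    rw [add_comm a b, add_comm K]
    exact Lt_add_small hb ha

end Pool.Agent.X90.DC
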