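import Pool.Agent.X90.DC.Dec

/-!
# The stuffle product of all multiple zeta values
-/

set_option autoImplicit false

namespace Pool.Agent.X90.DC

open Finset Filter Topology Pool.Agent.Y760.ZF
open Pool.Agent.Y760.ZG (mz hr hr_nil hr_cons hr_nonneg)
open Pool.Agent.X90.DB (Ad ex ex_nil ex_ne ad_sti ad_ne)

lemma hr_mono (l : List ℕ) {m m' : ℕ} (h : m ≤ m') : hr l m ≤ hr l m' := by
  cases l with
  | nil => rw [hr_nil, hr_nil]
  | cons s l =>
    rw [hr_cons, hr_cons]
    exact sum_le_sum_of_subset_of_nonneg (Ico_subset_Ico le_rfl h) fun j _ _ =>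
      div_nonneg (hr_nonneg _ _) (by positivity)

lemma hr_log (l : List ℕ) (hl : ∀ t ∈ l, 1 ≤ t) : ∀ m : ℕ, 1 ≤ m →
    hr l m ≤ (1 + Real.log m) ^ l.length := by
  induction l with
  | nil =>
    intro m _
    rw [hr_nil]
    simp
  | cons s l ih =>
    intro m hm
    have hs : 1 ≤ s := hl s List.mem_cons_self
    have hm1 : (1 : ℝ) ≤ m := by exact_mod_cast hm
    have hlog : 0 ≤ Real.log m := Real.log_nonneg hm1
    rw [hr_cons, List.length_cons, pow_succ]
    have h1 : ∀ j ∈ Ico 1 m, hr l j / (j : ℝ) ^ s ≤ (1 + Real.log m) ^ l.length * (j : ℝ)⁻¹ := by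
      intro j hj
      rw [mem_Ico] at hj
      have hj1 : (1 : ℝ) ≤ j := by exact_mod_cast hj.1
      rw [div_eq_mul_inv]
      refine mul_le_mul ((hr_mono l hj.2.le).trans
        (ih (fun t ht => hl t (List.mem_cons_of_mem _ ht)) m hm)) ?_ (by positivity) (by positivity)
      exact inv_anti₀ (by positivity) (le_self_pow₀ hj1 (by omega))
    refine (sum_le_sum h1).trans ?_
    rw [← mul_sum]
    refine mul_le_mul_of_nonneg_left ?_ (by positivity)
    have h2 : ∑ j ∈ Ico 1 m, (j : ℝ)⁻¹ ≤ ∑ j ∈ Icc 1 m, (j : ℝ)⁻¹ :=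
      sum_le_sum_of_subset_of_nonneg Ico_subset_Icc_self fun _ _ _ => by positivity
    refine h2.trans ?_
    have h3 := harmonic_le_one_add_log m
    rw [harmonic_eq_sum_Icc] at h3
    push_cast at h3
    exact h3

lemma summable_hr (l : List ℕ) (hl : ∀ t ∈ l, 1 ≤ t) {s : ℕ} (hs : 2 ≤ s) :
    Summable fun m : ℕ => hr l (m + 1) / ((m + 1 : ℕ) : ℝ) ^ s := by
  set r := l.length with hr0
  set ε : ℝ := 1 / (2 * (r + 1)) with hε
  have hε0 : 0 < ε := by positivity
  have hb : ∀ m : ℕ, 1 ≤ m → hr l m ≤ (1 + 1 / ε) ^ r * (m : ℝ) ^ (1 / 2 : ℝ) := by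
    intro m hm
    have hm1 : (1 : ℝ) ≤ m := by exact_mod_cast hm
    have hlog : 0 ≤ Real.log m := Real.log_nonneg hm1
    have h1 : (1 : ℝ) ≤ (m : ℝ) ^ ε := Real.one_le_rpow hm1 hε0.le
    have h2 : 1 + Real.log m ≤ (1 + 1 / ε) * (m : ℝ) ^ ε := by
      have := Real.log_le_rpow_div (by linarith : (0 : ℝ) ≤ m) hε0
      have e : (m : ℝ) ^ ε / ε = 1 / ε * (m : ℝ) ^ ε := by ring
      rw [e] at this
      linarith
    refine (hr_log l hl m hm).trans ?_
    refine (pow_le_pow_left₀ (by linarith) h2 _).trans ?_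
    rw [mul_pow]
    refine mul_le_mul_of_nonneg_left ?_ (by positivity)
    rw [← Real.rpow_natCast, ← Real.rpow_mul (by linarith)]
    refine Real.rpow_le_rpow_of_exponent_le hm1 ?_
    rw [hε, hr0]
    rw [div_mul_eq_mul_div, one_mul, div_le_div_iff₀ (by positivity) (by norm_num)]
    linarith
  have hsum : Summable fun m : ℕ => (1 + 1 / ε) ^ r * ((m + 1 : ℕ) : ℝ) ^ (-(3 / 2) : ℝ) := by
    refine Summable.mul_left _ ?_
    have h1 : Summable fun m : ℕ => (m : ℝ) ^ (-(3 / 2) : ℝ) :=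
      Real.summable_nat_rpow.2 (by norm_num)
    exact (summable_nat_add_iff 1).2 h1
  refine Summable.of_nonneg_of_le (fun m => div_nonneg (hr_nonneg _ _) (by positivity))
    (fun m => ?_) hsum
  have hm : (1 : ℝ) ≤ ((m + 1 : ℕ) : ℝ) := by
    push_cast
    linarith [(Nat.cast_nonneg m : (0 : ℝ) ≤ m)]
  have hm0 : (0 : ℝ) < ((m + 1 : ℕ) : ℝ) := by linarith
  have h1 := hb (m + 1) (by omega)
  rw [div_eq_mul_inv]
  calc hr l (m + 1) * (((m + 1 : ℕ) : ℝ) ^ s)⁻¹ ≤
      ((1 + 1 / ε) ^ r * ((m + 1 : ℕ) : ℝ) ^ (1 / 2 : ℝ)) * (((m + 1 : ℕ) : ℝ) ^ 2)⁻¹ := by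
        refine mul_le_mul h1 ?_ (by positivity) (by positivity)
        exact inv_anti₀ (by positivity) (pow_le_pow_right₀ hm hs)
    _ = (1 + 1 / ε) ^ r * ((m + 1 : ℕ) : ℝ) ^ (-(3 / 2) : ℝ) := by
        rw [mul_assoc]
        congr 1
        rw [← Real.rpow_natCast ((m + 1 : ℕ) : ℝ) 2, ← Real.rpow_neg hm0.le, ← Real.rpow_add hm0]
        norm_num

lemma tendsto_hr' {w : List ℕ} (hw : w = [] ∨ Ad w) :
    Tendsto (fun m => hr w m) atTop (𝓝 (mz w)) := by
  cases w with
  | nil =>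
    simp only [hr_nil, mz]
    exact tendsto_const_nhds
  | cons s l =>
    have hA : Ad (s :: l) := hw.resolve_left (List.cons_ne_nil _ _)
    have h1 := summable_hr l hA.2 hA.1
    have h2 := h1.hasSum.tendsto_sum_nat
    rw [← tendsto_add_atTop_iff_nat 1, mz]
    refine h2.congr fun m => ?_
    rw [hr_cons, Finset.sum_Ico_eq_sum_range, Nat.add_sub_cancel]
    refine Finset.sum_congr rfl fun i _ => ?_
    rw [add_comm 1 i]

/-- **the stuffle product of multiple zeta values** -/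
theorem mz_stuffle (u v : List ℕ) (hu : Ad u) (hv : Ad v) : mz u * mz v = ((sti u v).map mz).sum := by
  have h1 : ∀ L : List (List ℕ), (∀ w ∈ L, w = [] ∨ Ad w) →
      Tendsto (fun m => (L.map fun w => hr w m).sum) atTop (𝓝 (L.map mz).sum) := by
    intro L
    induction L with
    | nil => intro _; simp
    | cons w L ih =>
      intro hL
      simp only [List.map_cons, List.sum_cons]
      exact (tendsto_hr' (hL w List.mem_cons_self)).add
        (ih fun w' hw' => hL w' (List.mem_cons_of_mem _ hw'))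
  refine tendsto_nhds_unique ((tendsto_hr' (Or.inr hu)).mul (tendsto_hr' (Or.inr hv)))
    ((h1 (sti u v) fun w hw => Or.inr (ad_sti hu hv w hw)).congr fun m => ?_)
  rw [hr_mul]

theorem mz_stuffle_C (u v : List ℕ) (hu : Ad u) (hv : Ad v) :
    ((mz u : ℝ) : ℂ) * ((mz v : ℝ) : ℂ) = ((sti u v).map fun w => ((mz w : ℝ) : ℂ)).sum := by
  rw [← Complex.ofReal_mul, mz_stuffle u v hu hv]
  generalize sti u v = T
  induction T with
  | nil => simp
  | cons a T ih =>
    rw [List.map_cons, List.sum_cons, Complex.ofReal_add, ih, List.map_cons, List.sum_cons]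

lemma ex_mz (u : List ℕ) : ex (fun w => ((mz w : ℝ) : ℂ)) u = ((mz u : ℝ) : ℂ) := by
  by_cases h : u = []
  · subst h
    rw [ex_nil, mz]
    simp
  · rw [ex_ne _ h]

end Pool.Agent.X90.DC
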