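import Pool.Agent.X90.DC.Final

/-!
# Patterns with a fixed prefix
-/

set_option autoImplicit false

namespace Pool.Agent.X90.DC

open Finset Pool.Agent.Y760.ZF
open Pool.Agent.Y760.ZG (mz)
open Pool.Agent.X90.DA (fx eval_fx)
open Pool.Agent.X90.DB (Ad ex ex_nil ex_ne ad_ne ix)

/-- the letters in `k` variables -/
abbrev Lr (k : ℕ) : Type := ℕ × (Fin k → ℕ)

/-- the stuffle product of patterns -/
def psti {k : ℕ} : List (Lr k) → List (Lr k) → List (List (Lr k))
  | [], l => [l]
  | i :: u, [] => [i :: u]
  | i :: u, j :: l => (psti u (j :: l)).map (i :: ·) ++ (psti (i :: u) l).map (j :: ·) ++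
      (psti u l).map ((i + j) :: ·)
termination_by u l => u.length + l.length

lemma ix_cons {k : ℕ} (s : Fin k → ℕ) (u : Lr k) (w : List (Lr k)) :
    ix s (u :: w) = (u.1 + ∑ j, u.2 j * s j) :: ix s w := rfl

lemma ix_append {k : ℕ} (s : Fin k → ℕ) (u w : List (Lr k)) : ix s (u ++ w) = ix s u ++ ix s w := by
  rw [ix, ix, ix, List.map_append]

lemma ix_psti {k : ℕ} (s : Fin k → ℕ) (u v : List (Lr k)) :
    sti (ix s u) (ix s v) = (psti u v).map (ix s) := by
  induction u, v using psti.induct with
  | case1 v =>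
    rw [psti, ix, List.map_nil, sti]
    rfl
  | case2 i u =>
    rw [psti, ix_cons]
    have : ix s ([] : List (Lr k)) = [] := rfl
    rw [this, sti]
    rfl
  | case3 i u j v ih1 ih2 ih3 =>
    rw [psti, ix_cons, ix_cons, sti, ← ix_cons s j v, ← ix_cons s i u, ih1, ih2, ih3]
    rw [List.map_append, List.map_append]
    simp only [List.map_map]
    congr 1
    refine List.map_congr_left fun x _ => ?_
    simp only [Function.comp, ix_cons, List.cons.injEq, and_true]
    simp only [Prod.fst_add, Prod.snd_add, Pi.add_apply, add_mul, sum_add_distrib]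
    ring

/-- the letters of the stuffle product of patterns -/
lemma psti_ok {k : ℕ} (u v : List (Lr k)) : (∀ a ∈ u, a.2 ≠ 0 ∨ 1 ≤ a.1) →
    (∀ a ∈ v, a.2 ≠ 0 ∨ 1 ≤ a.1) → ∀ x ∈ psti u v, ∀ a ∈ x, a.2 ≠ 0 ∨ 1 ≤ a.1 := by
  induction u, v using psti.induct with
  | case1 v =>
    intro _ hv x hx
    rw [psti, List.mem_singleton] at hx
    exact hx ▸ hv
  | case2 i u =>
    intro hu _ x hx
    rw [psti, List.mem_singleton] at hx
    exact hx ▸ hu
  | case3 i u j v ih1 ih2 ih3 =>
    intro hu hv x hx a ha
    have hu' : ∀ a ∈ u, a.2 ≠ 0 ∨ 1 ≤ a.1 := fun a ha => hu a (List.mem_cons_of_mem _ ha)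
    have hv' : ∀ a ∈ v, a.2 ≠ 0 ∨ 1 ≤ a.1 := fun a ha => hv a (List.mem_cons_of_mem _ ha)
    rw [psti, List.mem_append, List.mem_append, List.mem_map, List.mem_map, List.mem_map] at hx
    rcases hx with (⟨x', hx', rfl⟩ | ⟨x', hx', rfl⟩) | ⟨x', hx', rfl⟩
    · rcases List.mem_cons.1 ha with rfl | ha
      · exact hu _ List.mem_cons_self
      · exact ih1 hu' hv x' hx' a ha
    · rcases List.mem_cons.1 ha with rfl | ha
      · exact hv _ List.mem_cons_self
      · exact ih2 hu hv' x' hx' a ha
    · rcases List.mem_cons.1 ha with rfl | ha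
      · rcases hu i List.mem_cons_self with h | h
        · left
          intro h0
          apply h
          funext j'
          have := congrFun h0 j'
          simp only [Prod.snd_add, Pi.add_apply, Pi.zero_apply] at this ⊢
          omega
        · right
          simp only [Prod.fst_add]
          omega
      · exact ih3 hu' hv' x' hx' a ha

/-- fixed letters -/
def fp {k : ℕ} (p : List ℕ) : List (Lr k) := p.map fun b => (b, 0)

lemma ix_fp {k : ℕ} (s : Fin k → ℕ) (p : List ℕ) : ix s (fp p) = p := by
  rw [ix, fp, List.map_map]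
  conv_rhs => rw [← List.map_id p]
  refine List.map_congr_left fun b _ => ?_
  simp

/-- the product of a fixed index and a good pattern -/
lemma psti_split {k : ℕ} (p : List ℕ) : (∀ a ∈ p, 1 ≤ a) → ∀ v : List (Lr k), Gd v → v ≠ [] →
    ∃ R : List (List ℕ × List (Lr k)),
      (∀ e ∈ R, (∃ q, q ≠ [] ∧ p = e.1 ++ q) ∧ Gd e.2) ∧
      ∀ (A : Type) [AddCommMonoid A] (F : List (Lr k) → A),
        ((psti (fp p) v).map F).sum = F (fp p ++ v) + (R.map fun e => F (fp e.1 ++ e.2)).sum := by
  induction p with
  | nil =>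
    intro _ v hv hne
    refine ⟨[], fun e he => absurd he List.not_mem_nil, fun A _ F => ?_⟩
    have : (fp [] : List (Lr k)) = [] := rfl
    rw [this, psti]
    simp
  | cons b p ih =>
    intro hp v hv hne
    obtain ⟨R', hR', hsum⟩ := ih (fun a ha => hp a (List.mem_cons_of_mem _ ha)) v hv hne
    cases v with
    | nil => exact absurd rfl hne
    | cons j l =>
      have hj : j.2 ≠ 0 := hv.1 j (by simp)
      have hl : ∀ a ∈ l, a.2 ≠ 0 ∨ 1 ≤ a.1 := fun a ha => hv.2 a (List.mem_cons_of_mem _ ha)
      have hbp : ∀ a ∈ (fp (b :: p) : List (Lr k)), a.2 ≠ 0 ∨ 1 ≤ a.1 := by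
        intro a ha
        rw [fp, List.mem_map] at ha
        obtain ⟨b', hb', rfl⟩ := ha
        exact Or.inr (hp b' hb')
      have hbp' : ∀ a ∈ (fp p : List (Lr k)), a.2 ≠ 0 ∨ 1 ≤ a.1 := by
        intro a ha
        rw [fp, List.mem_map] at ha
        obtain ⟨b', hb', rfl⟩ := ha
        exact Or.inr (hp b' (List.mem_cons_of_mem _ hb'))
      refine ⟨R'.map (fun e => (b :: e.1, e.2)) ++
        ((psti (fp (b :: p)) l).map (fun x => (([] : List ℕ), j :: x)) ++
          (psti (fp p) l).map (fun x => (([] : List ℕ), ((b, 0) + j) :: x))), fun e he => ?_,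
        fun A _ F => ?_⟩
      · rw [List.mem_append, List.mem_append, List.mem_map, List.mem_map, List.mem_map] at he
        rcases he with ⟨e', he', rfl⟩ | ⟨x, hx, rfl⟩ | ⟨x, hx, rfl⟩
        · obtain ⟨⟨q, hq, h1⟩, h2⟩ := hR' e' he'
          exact ⟨⟨q, hq, by rw [h1, List.cons_append]⟩, h2⟩
        · refine ⟨⟨b :: p, List.cons_ne_nil _ _, rfl⟩, ?_, ?_⟩
          · intro u hu
            simp only [List.head?_cons, Option.mem_some_iff] at hu
            exact hu ▸ hj
          · intro u hu
            rcases List.mem_cons.1 hu with rfl | hu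
            · exact Or.inl hj
            · exact psti_ok _ _ hbp hl x hx u hu
        · have hj' : ((b, 0) + j : Lr k).2 ≠ 0 := by
            simpa using hj
          refine ⟨⟨b :: p, List.cons_ne_nil _ _, rfl⟩, ?_, ?_⟩
          · intro u hu
            simp only [List.head?_cons, Option.mem_some_iff] at hu
            exact hu ▸ hj'
          · intro u hu
            rcases List.mem_cons.1 hu with rfl | hu
            · exact Or.inl hj'
            · exact psti_ok _ _ hbp' hl x hx u hu
      · have e1 : (fp (b :: p) : List (Lr k)) = (b, 0) :: fp p := rfl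
        rw [e1, psti, List.map_append, List.map_append, List.sum_append, List.sum_append,
          List.map_append, List.map_append, List.sum_append, List.sum_append]
        simp only [List.map_map]
        have h2 := hsum A (fun x => F ((b, 0) :: x))
        have e2 : (F ∘ fun x : List (Lr k) => (b, 0) :: x) = fun x => F ((b, 0) :: x) := rfl
        rw [e2, h2]
        rw [add_assoc, add_assoc]
        rfl

/-- general patterns -/
def Ge {k : ℕ} (w : List (Lr k)) : Prop :=
  (∀ u ∈ w.head?, u.2 ≠ 0 ∨ 2 ≤ u.1) ∧ ∀ u ∈ w, u.2 ≠ 0 ∨ 1 ≤ u.1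

/-- the weight of the longest prefix with fixed letters -/
def fw {k : ℕ} : List (Lr k) → ℕ
  | [] => 0
  | u :: w => open Classical in if u.2 = 0 then u.1 + fw w else 0

lemma exists_prefix {k : ℕ} (w : List (Lr k)) (hw : ∀ u ∈ w, u.2 ≠ 0 ∨ 1 ≤ u.1) :
    ∃ (p : List ℕ) (v : List (Lr k)), (∀ a ∈ p, 1 ≤ a) ∧ Gd v ∧ w = fp p ++ v ∧ p.sum = fw w := by
  induction w with
  | nil => exact ⟨[], [], by simp, ⟨by simp, by simp⟩, rfl, rfl⟩
  | cons u w ih =>
    obtain ⟨p, v, h1, h2, h3, h4⟩ := ih fun a ha => hw a (List.mem_cons_of_mem _ ha)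
    by_cases hu : u.2 = 0
    · refine ⟨u.1 :: p, v, ?_, h2, ?_, ?_⟩
      · intro a ha
        rcases List.mem_cons.1 ha with rfl | ha
        · exact (hw u List.mem_cons_self).resolve_left (not_not.2 hu)
        · exact h1 a ha
      · rw [h3]
        show _ = (u.1, 0) :: (fp p ++ v)
        rw [← hu]
      · rw [fw, if_pos hu, List.sum_cons, h4]
    · refine ⟨[], u :: w, by simp, ⟨?_, hw⟩, rfl, ?_⟩
      · intro a ha
        simp only [List.head?_cons, Option.mem_some_iff] at ha
        exact ha ▸ hu
      · rw [fw, if_neg hu, List.sum_nil]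

lemma ge_prefix {k : ℕ} {p : List ℕ} {v : List (Lr k)} (h : Ge (fp p ++ v)) : p = [] ∨ Ad p := by
  cases p with
  | nil => exact Or.inl rfl
  | cons b p =>
    right
    have e : (fp (b :: p) ++ v : List (Lr k)) = (b, 0) :: (fp p ++ v) := rfl
    rw [e] at h
    refine ⟨?_, fun a ha => ?_⟩
    · have := h.1 (b, 0) (by simp)
      simpa using this
    · have := h.2 (a, 0) (List.mem_cons_of_mem _ (List.mem_append_left _ (by
        rw [fp, List.mem_map]
        exact ⟨a, ha, rfl⟩)))
      simpa using this

lemma ad_of_prefix {p q : List ℕ} (h : Ad (p ++ q)) : p = [] ∨ Ad p := by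
  cases p with
  | nil => exact Or.inl rfl
  | cons a p =>
    right
    rw [List.cons_append] at h
    exact ⟨h.1, fun t ht => h.2 t (List.mem_append_left _ ht)⟩

/-- **the decomposition** -/
lemma dec {k : ℕ} (n : ℕ) : ∀ p : List ℕ, p.length ≤ n → (p = [] ∨ Ad p) → ∀ v : List (Lr k), Gd v →
    ∃ L : List (ℤ × List ℕ × List (Lr k)),
      (∀ e ∈ L, (e.2.1 = [] ∨ Ad e.2.1) ∧ e.2.1.sum ≤ p.sum ∧ Gd e.2.2) ∧
      ∀ (A : Type) [CommRing A] (Z : List ℕ → A),
        (∀ u v, Ad u → Ad v → Z u * Z v = ((sti u v).map Z).sum) →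
        ∀ s : Fin k → ℕ, (∀ j, 2 ≤ s j) → ex Z (p ++ ix s v) =
          (L.map fun e => (e.1 : A) * (ex Z e.2.1 * ex Z (ix s e.2.2))).sum := by
  induction n with
  | zero =>
    intro p hp _ v hv
    have : p = [] := List.eq_nil_of_length_eq_zero (by omega)
    subst this
    refine ⟨[(1, [], v)], fun e he => ?_, fun A _ Z hZ s hs => ?_⟩
    · rw [List.mem_singleton] at he
      subst he
      exact ⟨Or.inl rfl, le_rfl, hv⟩
    · simp [ex_nil]
  | succ n ih =>
    intro p hp hpA v hv
    by_cases hv0 : v = []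
    · subst hv0
      refine ⟨[(1, p, [])], fun e he => ?_, fun A _ Z hZ s hs => ?_⟩
      · rw [List.mem_singleton] at he
        subst he
        exact ⟨hpA, le_rfl, hv⟩
      · have : ix s ([] : List (Lr k)) = [] := rfl
        simp [this, ex_nil]
    · have hp1 : ∀ a ∈ p, 1 ≤ a := by
        rcases hpA with rfl | h
        · simp
        · exact h.pos
      obtain ⟨R, hR, hsum⟩ := psti_split p hp1 v hv hv0
      have h1 : ∀ e : List ℕ × List (Lr k), e ∈ R → ∃ L : List (ℤ × List ℕ × List (Lr k)),
          (∀ e' ∈ L, (e'.2.1 = [] ∨ Ad e'.2.1) ∧ e'.2.1.sum ≤ e.1.sum ∧ Gd e'.2.2) ∧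
          ∀ (A : Type) [CommRing A] (Z : List ℕ → A),
            (∀ u v, Ad u → Ad v → Z u * Z v = ((sti u v).map Z).sum) →
            ∀ s : Fin k → ℕ, (∀ j, 2 ≤ s j) → ex Z (e.1 ++ ix s e.2) =
              (L.map fun e => (e.1 : A) * (ex Z e.2.1 * ex Z (ix s e.2.2))).sum := by
        intro e he
        obtain ⟨⟨q, hq, hpe⟩, hg⟩ := hR e he
        refine ih e.1 ?_ ?_ e.2 hg
        · have := List.length_pos_iff.2 hq
          rw [hpe, List.length_append] at hp
          omega
        · rcases hpA with h | h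
          · rw [hpe] at h
            exact Or.inl (List.append_eq_nil_iff.1 h).1
          · rw [hpe] at h
            exact ad_of_prefix h
      choose! Lf hLf1 hLf2 using h1
      refine ⟨(1, p, v) :: R.flatMap fun e => (Lf e).map fun e' => (-e'.1, e'.2),
        fun e he => ?_, fun A _ Z hZ s hs => ?_⟩
      · rcases List.mem_cons.1 he with rfl | he
        · exact ⟨hpA, le_rfl, hv⟩
        · rw [List.mem_flatMap] at he
          obtain ⟨e1, he1, he⟩ := he
          rw [List.mem_map] at he
          obtain ⟨e2, he2, rfl⟩ := he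
          obtain ⟨g1, g2, g3⟩ := hLf1 e1 he1 e2 he2
          refine ⟨g1, g2.trans ?_, g3⟩
          obtain ⟨⟨q, hq, hpe⟩, hg⟩ := hR e1 he1
          rw [hpe, List.sum_append]
          exact Nat.le_add_right _ _
      · have hvA : ix s v = [] ∨ Ad (ix s v) := ix_Ad hs hv
        have h2 := ex_mul' hZ hpA hvA
        have h3 : sti p (ix s v) = (psti (fp p) v).map (ix s) := by
          rw [← ix_psti, ix_fp]
        rw [h3, List.map_map] at h2
        have h4 := hsum A (ex Z ∘ ix s)
        rw [h4] at h2
        simp only [Function.comp, ix_append, ix_fp] at h2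
        have h5 : ∀ R' : List (List ℕ × List (Lr k)), (∀ e ∈ R', e ∈ R) →
            ((R'.flatMap fun e => (Lf e).map fun e' => (-e'.1, e'.2)).map
              fun e => (e.1 : A) * (ex Z e.2.1 * ex Z (ix s e.2.2))).sum =
            -(R'.map fun e => ex Z (e.1 ++ ix s e.2)).sum := by
          intro R'
          induction R' with
          | nil => simp
          | cons e R' ihR =>
            intro hR'
            rw [List.flatMap_cons, List.map_append, List.sum_append,
              ihR fun e he => hR' e (List.mem_cons_of_mem _ he), List.map_cons, List.sum_cons,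
              neg_add]
            congr 1
            rw [hLf2 e (hR' e List.mem_cons_self) A Z hZ s hs, List.map_map]
            generalize Lf e = T
            induction T with
            | nil => simp
            | cons a T ihT =>
              rw [List.map_cons, List.sum_cons, ihT, List.map_cons, List.sum_cons]
              simp only [Function.comp]
              push_cast
              ring
        rw [List.map_cons, List.sum_cons, h5 R fun e he => he, h2]
        push_cast
        ring

end Pool.Agent.X90.DC
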