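import Pool.Agent.X90.DC.Trans

/-!
# The count of the exceptional tuples
-/

set_option autoImplicit false

namespace Pool.Agent.X90.DC

open Finset Pool.Agent.Y760.ZF
open Pool.Agent.Y760.ZG (mz)
open Pool.Agent.X90.DB (GT Lt Lt_zero ix card_noGT)

/-- **few tuples with exceptional relations** -/
theorem few (t k r D : ℕ) (w : Fin r → List (ℕ × (Fin k → ℕ)))
    (hw : ∀ i, Gd (w i)) (κ : ℕ) :
    ∃ K : ℕ, ∀ (C : ℝ) (x : Fin t → ℂ), ∃ N0 : ℕ, ∀ N : ℕ, N0 ≤ N → ∀ B : Finset (Fin k → ℕ),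
      (∀ s ∈ B, (∀ j, N ≤ s j ∧ s j ≤ κ * N) ∧
        ∃ P : MvPolynomial (Fin t ⊕ Fin r) ℤ, P.totalDegree ≤ D ∧
          (∀ m, |((P.coeff m : ℤ) : ℝ)| ≤ C ^ N) ∧
          MvPolynomial.aeval (Sum.elim x fun i => ((mz (ix s (w i)) : ℝ) : ℂ)) P = 0 ∧
          ¬ Triv x (fun i => ix s (w i)) P) →
      B.card ≤ K * N ^ (k - 1) := by
  classical
  -- the constants of the words
  obtain ⟨K0, hK0⟩ : ∃ K0 : ℕ, ∀ i, ∀ u ∈ w i, u.1 ≤ K0 ∧ ∀ j, u.2 j ≤ K0 := by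
    refine ⟨∑ i, ((w i).map fun u => u.1 + ∑ j, u.2 j).sum, fun i u hu => ?_⟩
    have h1 : ((w i).map fun u => u.1 + ∑ j, u.2 j).sum ≤
        ∑ i, ((w i).map fun u => u.1 + ∑ j, u.2 j).sum :=
      single_le_sum (f := fun i => ((w i).map fun u => u.1 + ∑ j, u.2 j).sum)
        (fun _ _ => Nat.zero_le _) (mem_univ i)
    have h2 : u.1 + ∑ j, u.2 j ≤ ((w i).map fun u => u.1 + ∑ j, u.2 j).sum :=
      List.single_le_sum (fun _ _ => Nat.zero_le _) _ (List.mem_map_of_mem hu)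
    refine ⟨by omega, fun j => ?_⟩
    have h3 : u.2 j ≤ ∑ j, u.2 j :=
      single_le_sum (f := fun j => u.2 j) (fun _ _ => Nat.zero_le _) (mem_univ j)
    omega
  obtain ⟨ℓ, hℓ⟩ : ∃ ℓ : ℕ, ∀ i, (w i).length ≤ ℓ :=
    ⟨∑ i, (w i).length, fun i => single_le_sum (f := fun i => (w i).length)
      (fun _ _ => Nat.zero_le _) (mem_univ i)⟩
  set m : ℕ := 3 ^ ((D + 1) ^ t) with hm
  set Kk : ℕ := r * D * K0 with hKk
  set T : ℕ := ∑ M ∈ range ((D + 1) ^ t), Tn M Kk with hT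
  set Q : ℕ := T + m * Kk + Kk with hQ
  refine ⟨(2 * Q + 1) ^ (1 + m * k) * κ ^ (k - 1), fun C x => ?_⟩
  obtain ⟨M, hM, v, hv, C', hC', hdich⟩ := dich t k r D w hw κ K0 ℓ hK0 hℓ C x
  obtain ⟨n0, hno⟩ := no_many M ((D + 1) ^ r * (3 ^ (r * D * ℓ)) ^ (r * D)) (r * D * ℓ)
    ((r * D * (K0 * (1 + k * κ)) : ℕ) : ℝ) C' Kk (Nat.cast_nonneg _) hC'
  have hTM : Tn M Kk ≤ T := by
    rw [hT]
    exact single_le_sum (f := fun M => Tn M Kk) (fun _ _ => Nat.zero_le _) (mem_range.2 hM)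
  refine ⟨n0 + (r * D * ℓ + 2), fun N hN B hB => ?_⟩
  have hBsub : B ⊆ Fintype.piFinset fun _ : Fin k => Finset.Icc N (κ * N) := by
    intro s hs
    rw [Fintype.mem_piFinset]
    exact fun j => mem_Icc.2 ((hB s hs).1 j)
  have h1 := card_noGT Q N (κ * N) B hBsub m (fun s hs hGT => by
    have hs1 : ∀ i j, N ≤ s i j := fun i j => ((hB _ (hs i)).1 j).1
    refine hno N (by omega) v hv (Fin m) (fun i => Lt Kk (s i)) ?_ ?_ (fun i => ?_) fun i => ?_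
    · rw [Fintype.card_fin, hm]
      exact Nat.pow_le_pow_right (by norm_num) (by omega)
    · refine GP.mono (gp hGT (T := T) ?_ ?_) hTM
      · rw [Fintype.card_fin, hQ]
        omega
      · rw [hQ]
        omega
    · exact Lt_zero fun j => le_trans (by omega) (hs1 i j)
    · obtain ⟨hs2, P, hPD, hPC, hP0, hPne⟩ := hB _ (hs i)
      exact (hdich N (by omega) (s i) hs2 P hPD hPC hP0).resolve_right hPne)
  refine h1.trans ?_
  rw [mul_assoc, ← mul_pow]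
  refine Nat.mul_le_mul_left _ (Nat.pow_le_pow_left ?_ _)
  omega

end Pool.Agent.X90.DC
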