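import Pool.Agent.X90.DC.Gen

/-!
# General patterns, with a set of fixed indices
-/

set_option autoImplicit false

namespace Pool.Agent.X90.DC

open Finset Pool.Agent.Y760.ZF
open Pool.Agent.Y760.ZG (mz)
open Pool.Agent.X90.DA (fx eval_fx)
open Pool.Agent.X90.DB (Ad ex ex_nil ex_ne ad_ne ix)

/-- the fixed letters in front of the first letter which depends on the variables -/
def fpx {k : ℕ} : List (Lr k) → List ℕ
  | [] => []
  | u :: w => open Classical in if u.2 = 0 then u.1 :: fpx w else []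

lemma exists_prefix2 {k : ℕ} (w : List (Lr k)) (hw : ∀ u ∈ w, u.2 ≠ 0 ∨ 1 ≤ u.1) :
    ∃ v : List (Lr k), Gd v ∧ w = fp (fpx w) ++ v := by
  induction w with
  | nil => exact ⟨[], ⟨by simp, by simp⟩, rfl⟩
  | cons u w ih =>
    obtain ⟨v, h2, h3⟩ := ih fun a ha => hw a (List.mem_cons_of_mem _ ha)
    by_cases hu : u.2 = 0
    · refine ⟨v, h2, ?_⟩
      rw [fpx, if_pos hu]
      show _ = (u.1, 0) :: (fp (fpx w) ++ v)
      rw [← h3, ← hu]
    · refine ⟨u :: w, ⟨?_, hw⟩, ?_⟩
      · intro a ha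
        simp only [List.head?_cons, Option.mem_some_iff] at ha
        exact ha ▸ hu
      · rw [fpx, if_neg hu]
        rfl

/-- **the decomposition** -/
lemma dec2 {k : ℕ} (n : ℕ) : ∀ p : List ℕ, p.length ≤ n → (p = [] ∨ Ad p) → ∀ v : List (Lr k), Gd v →
    ∃ L : List (ℤ × List ℕ × List (Lr k)),
      (∀ e ∈ L, (e.2.1 = [] ∨ Ad e.2.1) ∧ e.2.1 <+: p ∧ Gd e.2.2) ∧
      ∀ (A : Type) [CommRing A] (Z : List ℕ → A),
        (∀ u v, Ad u → Ad v → Z u * Z v = ((sti u v).map Z).sum) →
        ∀ s : Fin k → ℕ, (∀ j, 2 ≤ s j) → ex Z (p ++ ix s v) =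
          (L.map fun e => (e.1 : A) * (ex Z e.2.1 * ex Z (ix s e.2.2))).sum := by
  induction n with
  | zero =>
    intro p hp _ v hv
    have : p = [] := List.eq_nil_of_length_eq_zero (by omega)
    subst this
    refine ⟨[(1, [], v)], fun e he => ?_, fun A _ Z hZ s hs => ?_⟩
    · rw [List.mem_singleton] at he
      subst he
      exact ⟨Or.inl rfl, List.prefix_refl _, hv⟩
    · simp [ex_nil]
  | succ n ih =>
    intro p hp hpA v hv
    by_cases hv0 : v = []
    · subst hv0
      refine ⟨[(1, p, [])], fun e he => ?_, fun A _ Z hZ s hs => ?_⟩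
      · rw [List.mem_singleton] at he
        subst he
        exact ⟨hpA, List.prefix_refl _, hv⟩
      · have : ix s ([] : List (Lr k)) = [] := rfl
        simp [this, ex_nil]
    · have hp1 : ∀ a ∈ p, 1 ≤ a := by
        rcases hpA with rfl | h
        · simp
        · exact h.pos
      obtain ⟨R, hR, hsum⟩ := psti_split p hp1 v hv hv0
      have h1 : ∀ e : List ℕ × List (Lr k), e ∈ R → ∃ L : List (ℤ × List ℕ × List (Lr k)),
          (∀ e' ∈ L, (e'.2.1 = [] ∨ Ad e'.2.1) ∧ e'.2.1 <+: e.1 ∧ Gd e'.2.2) ∧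
          ∀ (A : Type) [CommRing A] (Z : List ℕ → A),
            (∀ u v, Ad u → Ad v → Z u * Z v = ((sti u v).map Z).sum) →
            ∀ s : Fin k → ℕ, (∀ j, 2 ≤ s j) → ex Z (e.1 ++ ix s e.2) =
              (L.map fun e => (e.1 : A) * (ex Z e.2.1 * ex Z (ix s e.2.2))).sum := by
        intro e he
        obtain ⟨⟨q, hq, hpe⟩, hg⟩ := hR e he
        refine ih e.1 ?_ ?_ e.2 hg
        · have := List.length_pos_iff.2 hq
          rw [hpe, List.length_append] at hp
          omega
        · rcases hpA with h | h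
          · rw [hpe] at h
            exact Or.inl (List.append_eq_nil_iff.1 h).1
          · rw [hpe] at h
            exact ad_of_prefix h
      choose! Lf hLf1 hLf2 using h1
      refine ⟨(1, p, v) :: R.flatMap fun e => (Lf e).map fun e' => (-e'.1, e'.2),
        fun e he => ?_, fun A _ Z hZ s hs => ?_⟩
      · rcases List.mem_cons.1 he with rfl | he
        · exact ⟨hpA, List.prefix_refl _, hv⟩
        · rw [List.mem_flatMap] at he
          obtain ⟨e1, he1, he⟩ := he
          rw [List.mem_map] at he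
          obtain ⟨e2, he2, rfl⟩ := he
          obtain ⟨g1, g2, g3⟩ := hLf1 e1 he1 e2 he2
          refine ⟨g1, g2.trans ?_, g3⟩
          obtain ⟨⟨q, hq, hpe⟩, hg⟩ := hR e1 he1
          rw [hpe]
          exact List.prefix_append _ _
      · have hvA : ix s v = [] ∨ Ad (ix s v) := ix_Ad hs hv
        have h2 := ex_mul' hZ hpA hvA
        have h3 : sti p (ix s v) = (psti (fp p) v).map (ix s) := by
          rw [← ix_psti, ix_fp]
        rw [h3, List.map_map] at h2
        have h4 := hsum A (ex Z ∘ ix s)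
        rw [h4] at h2
        simp only [Function.comp, ix_append, ix_fp] at h2
        have h5 : ∀ R' : List (List ℕ × List (Lr k)), (∀ e ∈ R', e ∈ R) →
            ((R'.flatMap fun e => (Lf e).map fun e' => (-e'.1, e'.2)).map
              fun e => (e.1 : A) * (ex Z e.2.1 * ex Z (ix s e.2.2))).sum =
            -(R'.map fun e => ex Z (e.1 ++ ix s e.2)).sum := by
          intro R'
          induction R' with
          | nil => simp
          | cons e R' ihR =>
            intro hR'
            rw [List.flatMap_cons, List.map_append, List.sum_append,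
              ihR fun e he => hR' e (List.mem_cons_of_mem _ he), List.map_cons, List.sum_cons,
              neg_add]
            congr 1
            rw [hLf2 e (hR' e List.mem_cons_self) A Z hZ s hs, List.map_map]
            generalize Lf e = T
            induction T with
            | nil => simp
            | cons a T ihT =>
              rw [List.map_cons, List.sum_cons, ihT, List.map_cons, List.sum_cons]
              simp only [Function.comp]
              push_cast
              ring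
        rw [List.map_cons, List.sum_cons, h5 R fun e he => he, h2]
        push_cast
        ring

/-- the relations between the numbers `x` and the multiple zeta values of the indices in `Π` hold for `y` and `Z` -/
def Rel2 {t : ℕ} (S : Set (List ℕ)) (x : Fin t → ℂ) {A : Type} [CommRing A] (y : Fin t → A)
    (Z : List ℕ → A) : Prop :=
  ∀ Q : MvPolynomial (Fin t ⊕ {p : List ℕ // Ad p ∧ p ∈ S}) ℤ,
    MvPolynomial.aeval (Sum.elim x fun p => ((mz p.1 : ℝ) : ℂ)) Q = 0 →
    MvPolynomial.aeval (Sum.elim y fun p => Z p.1) Q = 0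

/-- **few tuples with exceptional relations, general patterns** -/
theorem gen2 (t k r D : ℕ) (w : Fin r → List (Lr k)) (hw : ∀ i, Ge (w i)) (S : Set (List ℕ))
    (hS : ∀ i q, q <+: fpx (w i) → q ≠ [] → q ∈ S) (κ : ℕ) :
    ∃ K : ℕ, ∀ (C : ℝ) (x : Fin t → ℂ), ∃ N0 : ℕ, ∀ N : ℕ, N0 ≤ N → ∀ B : Finset (Fin k → ℕ),
      (∀ s ∈ B, (∀ j, N ≤ s j ∧ s j ≤ κ * N) ∧
        ∃ P : MvPolynomial (Fin t ⊕ Fin r) ℤ, P.totalDegree ≤ D ∧
          (∀ m, |((P.coeff m : ℤ) : ℝ)| ≤ C ^ N) ∧
          MvPolynomial.aeval (Sum.elim x fun i => ((mz (ix s (w i)) : ℝ) : ℂ)) P = 0 ∧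
          ¬ ∀ (A : Type) [CommRing A] [Algebra ℚ A] (y : Fin t → A) (Z : List ℕ → A),
            Rel2 S x y Z → (∀ u v, Ad u → Ad v → Z u * Z v = ((sti u v).map Z).sum) →
            MvPolynomial.aeval (Sum.elim y fun i => ex Z (ix s (w i))) P = 0) →
      B.card ≤ K * N ^ (k - 1) := by
  classical
  -- the decompositions
  have h1 : ∀ i, ∃ L : List (ℤ × List ℕ × List (Lr k)),
      (∀ e ∈ L, (e.2.1 = [] ∨ Ad e.2.1 ∧ e.2.1 ∈ S) ∧ Gd e.2.2) ∧
      ∀ (A : Type) [CommRing A] (Z : List ℕ → A),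
        (∀ u v, Ad u → Ad v → Z u * Z v = ((sti u v).map Z).sum) →
        ∀ s : Fin k → ℕ, (∀ j, 2 ≤ s j) → ex Z (ix s (w i)) =
          (L.map fun e => (e.1 : A) * (ex Z e.2.1 * ex Z (ix s e.2.2))).sum := by
    intro i
    obtain ⟨v, h2, h3⟩ := exists_prefix2 (w i) (hw i).2
    have hge : Ge (fp (fpx (w i)) ++ v) := by
      rw [← h3]
      exact hw i
    obtain ⟨L, hL1, hL2⟩ := dec2 (fpx (w i)).length (fpx (w i)) le_rfl (ge_prefix hge) v h2
    refine ⟨L, fun e he => ?_, fun A _ Z hZ s hs => ?_⟩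
    · obtain ⟨g1, g2, g3⟩ := hL1 e he
      by_cases h0 : e.2.1 = []
      · exact ⟨Or.inl h0, g3⟩
      · exact ⟨Or.inr ⟨g1.resolve_left h0, hS i _ g2 h0⟩, g3⟩
    · rw [h3, ix_append, ix_fp]
      exact hL2 A Z hZ s hs
  choose L hL1 hL2 using h1
  -- the variables
  set J : Type := Σ i : Fin r, Fin (L i).length with hJ
  set m : ℕ := Fintype.card J with hm
  let e : J ≃ Fin m := Fintype.equivFin J
  let val : Fin m → ℤ × List ℕ × List (Lr k) := fun j => (L (e.symm j).1).get (e.symm j).2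
  have hval : ∀ j, ((val j).2.1 = [] ∨ Ad (val j).2.1 ∧ (val j).2.1 ∈ S) ∧ Gd (val j).2.2 :=
    fun j => hL1 _ _ (List.get_mem _ _)
  have hvale : ∀ (i : Fin r) (j : Fin (L i).length), val (e ⟨i, j⟩) = (L i).get j := by
    intro i j
    show (L (e.symm (e ⟨i, j⟩)).1).get (e.symm (e ⟨i, j⟩)).2 = _
    rw [e.symm_apply_apply]
  obtain ⟨G, hG1, hG2⟩ : ∃ G : Fin t ⊕ Fin r → MvPolynomial (Fin (t + m) ⊕ Fin m) ℤ,
      (∀ (A : Type) [CommRing A] (X' : Fin (t + m) → A) (Y' : Fin m → A) (j : Fin t),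
        MvPolynomial.aeval (Sum.elim X' Y') (G (Sum.inl j)) = X' (Fin.castAdd m j)) ∧
      (∀ (A : Type) [CommRing A] (X' : Fin (t + m) → A) (Y' : Fin m → A) (i : Fin r),
        MvPolynomial.aeval (Sum.elim X' Y') (G (Sum.inr i)) = ∑ j : Fin (L i).length,
          ((((L i).get j).1 : ℤ) : A) * (X' (Fin.natAdd t (e ⟨i, j⟩)) * Y' (e ⟨i, j⟩))) := by
    refine ⟨Sum.elim (fun j => MvPolynomial.X (Sum.inl (Fin.castAdd m j)))
      (fun i => ∑ j : Fin (L i).length, ((((L i).get j).1 : ℤ) : MvPolynomial _ ℤ) *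
        (MvPolynomial.X (Sum.inl (Fin.natAdd t (e ⟨i, j⟩))) * MvPolynomial.X (Sum.inr (e ⟨i, j⟩)))),
      fun A _ X' Y' j => ?_, fun A _ X' Y' i => ?_⟩
    · simp
    · simp
  obtain ⟨D', S', hS', hsub⟩ := subst_bound G D
  obtain ⟨K, hK⟩ := few (t + m) k m D' (fun j => (val j).2.2) (fun j => (hval j).2) κ
  refine ⟨K, fun C x => ?_⟩
  set x' : Fin (t + m) → ℂ := Fin.append x fun j => ((mz (val j).2.1 : ℝ) : ℂ) with hx'
  obtain ⟨N0, hN0⟩ := hK ((1 + |C|) * (1 + S')) x'
  refine ⟨N0 + 2, fun N hN B hB => hN0 N (by omega) B fun s hs => ?_⟩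
  obtain ⟨hs1, P, hPD, hPC, hP0, hPne⟩ := hB s hs
  have hs2 : ∀ j, 2 ≤ s j := fun j => le_trans (by omega) (hs1 j).1
  -- the value of the new polynomial
  have hcomp : ∀ (A : Type) [CommRing A] (y : Fin t → A) (Z : List ℕ → A),
      (∀ u v, Ad u → Ad v → Z u * Z v = ((sti u v).map Z).sum) →
      MvPolynomial.aeval (Sum.elim (Fin.append y fun j => ex Z (val j).2.1)
        fun j => ex Z (ix s (val j).2.2)) (MvPolynomial.aeval G P : MvPolynomial _ ℤ) =
      MvPolynomial.aeval (Sum.elim y fun i => ex Z (ix s (w i))) P := by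
    intro A _ y Z hZ
    rw [← AlgHom.comp_apply]
    congr 1
    refine MvPolynomial.algHom_ext fun i => ?_
    rw [AlgHom.comp_apply, MvPolynomial.aeval_X, MvPolynomial.aeval_X]
    cases i with
    | inl j =>
      rw [hG1, Fin.append_left]
      rfl
    | inr i =>
      rw [hG2, Sum.elim_inr, hL2 i A Z hZ s hs2, sum_list]
      refine sum_congr rfl fun j _ => ?_
      rw [Fin.append_right, hvale]
  refine ⟨hs1, MvPolynomial.aeval G P, (hsub P hPD).1, fun m' => ?_, ?_, fun hT => hPne ?_⟩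
  · have hCN : ∀ m, |((P.coeff m : ℤ) : ℝ)| ≤ |C| ^ N := fun m =>
        (hPC m).trans ((le_abs_self _).trans (abs_pow _ _).le)
    refine ((hsub P hPD).2 (|C| ^ N) (by positivity) hCN m').trans ?_
    rw [mul_pow]
    refine mul_le_mul (pow_le_pow_left₀ (abs_nonneg _) (by linarith) _) ?_ hS' (by positivity)
    exact (by linarith : S' ≤ 1 + S').trans (le_self_pow₀ (by linarith) (by omega))
  · have h2 := hcomp ℂ x (fun u => ((mz u : ℝ) : ℂ)) mz_stuffle_C
    simp only [ex_mz] at h2
    rw [hx', h2, hP0]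
  · intro A _ _ y Z hR hZ
    rw [← hcomp A y Z hZ]
    refine hT A _ Z (fun Q hQ => ?_) hZ
    -- the relations
    set ψ : Fin (t + m) → MvPolynomial (Fin t ⊕ {p : List ℕ // Ad p ∧ p ∈ S}) ℤ :=
      Fin.append (fun j => MvPolynomial.X (Sum.inl j)) fun j =>
        if h : Ad (val j).2.1 ∧ (val j).2.1 ∈ S then MvPolynomial.X (Sum.inr ⟨(val j).2.1, h⟩) else 1
      with hψ
    have hψ' : ∀ (A : Type) [CommRing A] (y : Fin t → A) (Z : List ℕ → A),
        MvPolynomial.aeval (Sum.elim y fun p : {p : List ℕ // Ad p ∧ p ∈ S} => Z p.1)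
          (MvPolynomial.aeval ψ Q : MvPolynomial _ ℤ) =
        MvPolynomial.aeval (Fin.append y fun j => ex Z (val j).2.1) Q := by
      intro A _ y Z
      rw [← AlgHom.comp_apply]
      congr 1
      refine MvPolynomial.algHom_ext fun i => ?_
      rw [AlgHom.comp_apply, MvPolynomial.aeval_X, MvPolynomial.aeval_X]
      refine Fin.addCases (fun j => ?_) (fun j => ?_) i
      · rw [hψ, Fin.append_left, Fin.append_left, MvPolynomial.aeval_X, Sum.elim_inl]
      · rw [hψ, Fin.append_right, Fin.append_right]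
        rcases (hval j).1 with h | h
        · rw [dif_neg (by rw [h]; exact fun h => h.1), map_one, h, ex_nil]
        · rw [dif_pos h, MvPolynomial.aeval_X, Sum.elim_inr, ex_ne Z (ad_ne h.1)]
    rw [← hψ']
    refine hR _ ?_
    rw [hψ' ℂ x fun u => ((mz u : ℝ) : ℂ)]
    simp only [ex_mz]
    exact hQ

end Pool.Agent.X90.DC
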