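import Pool.Agent.X90.DB.App

/-!
# Stuffle products of words which start with letters of separate sets
-/

set_option autoImplicit false

namespace Pool.Agent.X90.DC

open Finset Pool.Agent.Y760.ZF
open Pool.Agent.X90.DB (append_mem_sti sti_mem)

/-- the words whose first letter is in `L` and whose letters are in `L` or at most `q` -/
def Hd (L : Set ℕ) (q : ℕ) (w : List ℕ) : Prop := (∀ a ∈ w.head?, a ∈ L) ∧ ∀ a ∈ w, a ∈ L ∨ a ≤ q

/-- separate sets of letters -/
def Sep (q : ℕ) (L L' : Set ℕ) : Prop :=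
  ∀ x y c, (x ∈ L ∨ x ≤ q) → (y ∈ L ∨ y ≤ q) → c ∈ L' → x ≠ y + c

lemma sti_nil_right (u : List ℕ) : sti u [] = [u] := by
  cases u <;> rw [sti]

/-- the first factor of a concatenation in a stuffle product is a prefix -/
lemma prefix_sti {q : ℕ} {L L' : Set ℕ} (hs : Sep q L L') (w : List ℕ) : ∀ w' u v : List ℕ,
    (∀ a ∈ w, a ∈ L ∨ a ≤ q) → (∀ a ∈ u, a ∈ L ∨ a ≤ q) → (∀ a ∈ v.head?, a ∈ L') →
    w ++ w' ∈ sti u v → ∃ u', u = w ++ u' ∧ w' ∈ sti u' v := by
  induction w with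
  | nil => exact fun w' u v _ _ _ h => ⟨u, rfl, h⟩
  | cons a w ih =>
    intro w' u v hw hu hv h
    cases v with
    | nil =>
      rw [sti_nil_right, List.mem_singleton] at h
      refine ⟨w', h.symm, ?_⟩
      rw [sti_nil_right]
      exact List.mem_singleton_self _
    | cons j l =>
      have hj : j ∈ L' := hv j (by simp)
      have ha : a ∈ L ∨ a ≤ q := hw a List.mem_cons_self
      have hne : a ≠ j := by
        have := hs a 0 j ha (Or.inr (Nat.zero_le _)) hj
        rwa [Nat.zero_add] at this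
      cases u with
      | nil =>
        rw [sti, List.mem_singleton, List.cons_append] at h
        exact absurd (List.cons.inj h).1 hne
      | cons i k =>
        rw [sti, List.mem_append, List.mem_append, List.mem_map, List.mem_map, List.mem_map,
          List.cons_append] at h
        rcases h with (⟨x', hx', e⟩ | ⟨x', hx', e⟩) | ⟨x', hx', e⟩
        · obtain ⟨e1, e2⟩ := List.cons.inj e
          subst e1
          subst e2
          obtain ⟨u', h1, h2⟩ := ih w' k (j :: l) (fun b hb => hw b (List.mem_cons_of_mem _ hb))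
            (fun b hb => hu b (List.mem_cons_of_mem _ hb)) hv hx'
          exact ⟨u', by rw [h1, List.cons_append], h2⟩
        · exact absurd (List.cons.inj e).1.symm hne
        · exact absurd (List.cons.inj e).1.symm (hs a i j ha (hu i List.mem_cons_self) hj)

/-- a factor which is not longer is the factor -/
lemma append_sti {q : ℕ} {L L' : Set ℕ} (hs : Sep q L L') {w w' u v : List ℕ}
    (hw : ∀ a ∈ w, a ∈ L ∨ a ≤ q) (hu : ∀ a ∈ u, a ∈ L ∨ a ≤ q) (hv : ∀ a ∈ v.head?, a ∈ L')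
    (h : w ++ w' ∈ sti u v) (hlen : u.length ≤ w.length) : u = w ∧ v = w' := by
  obtain ⟨u', h1, h2⟩ := prefix_sti hs w w' u v hw hu hv h
  have h3 : u' = [] := by
    rw [h1, List.length_append] at hlen
    exact List.eq_nil_of_length_eq_zero (by omega)
  subst h3
  rw [List.append_nil] at h1
  rw [sti, List.mem_singleton] at h2
  exact ⟨h1, h2.symm⟩

/-- the words of a stuffle product -/
lemma hd_sti {L L' L'' : Set ℕ} {q q' q'' : ℕ} (h1 : ∀ a ∈ L, a ∈ L'') (h2 : ∀ a ∈ L', a ∈ L'')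
    (h3 : ∀ a ∈ L, ∀ b ∈ L', a + b ∈ L'') (h4 : ∀ a ∈ L, ∀ b ≤ q', a + b ∈ L'')
    (h5 : ∀ a ≤ q, ∀ b ∈ L', a + b ∈ L'') (h6 : q + q' ≤ q'') {u v : List ℕ} (hu : Hd L q u)
    (hv : Hd L' q' v) : ∀ x ∈ sti u v, Hd L'' q'' x := by
  have hlet : ∀ x ∈ sti u v, ∀ a ∈ x, a ∈ L'' ∨ a ≤ q'' := by
    intro x hx a ha
    rcases sti_mem (L := {a | a ∈ L ∨ a ≤ q}) (L' := {a | a ∈ L' ∨ a ≤ q'}) u v hu.2 hv.2 x hx a ha
      with h | h | ⟨b, hb, c, hc, rfl⟩
    · rcases h with h | h
      · exact Or.inl (h1 a h)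
      · exact Or.inr (by omega)
    · rcases h with h | h
      · exact Or.inl (h2 a h)
      · exact Or.inr (by omega)
    · rcases hb with hb | hb
      · rcases hc with hc | hc
        · exact Or.inl (h3 b hb c hc)
        · exact Or.inl (h4 b hb c hc)
      · rcases hc with hc | hc
        · exact Or.inl (h5 b hb c hc)
        · exact Or.inr (by omega)
  intro x hx
  refine ⟨fun a ha => ?_, hlet x hx⟩
  cases u with
  | nil =>
    rw [sti, List.mem_singleton] at hx
    subst hx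
    exact h2 a (hv.1 a ha)
  | cons i k =>
    cases v with
    | nil =>
      rw [sti, List.mem_singleton] at hx
      subst hx
      exact h1 a (hu.1 a ha)
    | cons j l =>
      have hi : i ∈ L := hu.1 i (by simp)
      have hj : j ∈ L' := hv.1 j (by simp)
      rw [sti, List.mem_append, List.mem_append, List.mem_map, List.mem_map, List.mem_map] at hx
      rcases hx with (⟨x', _, rfl⟩ | ⟨x', _, rfl⟩) | ⟨x', _, rfl⟩
      · rw [List.head?_cons, Option.mem_some_iff] at ha
        exact h1 a (ha ▸ hi)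
      · rw [List.head?_cons, Option.mem_some_iff] at ha
        exact h2 a (ha ▸ hj)
      · rw [List.head?_cons, Option.mem_some_iff] at ha
        exact ha ▸ h3 i hi j hj

/-- **general position**: sums of letters in different sets of indices are different, also up to small numbers -/
def GP {I : Type} [Fintype I] (T : ℕ) (L : I → Set ℕ) : Prop :=
  ∀ (f g : I → ℕ) (c d : ℕ), c ≤ T → d ≤ T → (∀ i, f i = 0 ∨ f i ∈ L i) →
    (∀ i, g i = 0 ∨ g i ∈ L i) → c + ∑ i, f i = d + ∑ i, g i → ∀ i, f i = 0 → g i = 0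

lemma GP.mono {I : Type} [Fintype I] {T T' : ℕ} {L : I → Set ℕ} (h : GP T L) (hT : T' ≤ T) :
    GP T' L := fun f g c d hc hd => h f g c d (hc.trans hT) (hd.trans hT)

lemma GP.comp {I J : Type} [Fintype I] [DecidableEq I] [Fintype J] {T : ℕ} {L : I → Set ℕ}
    (h : GP T L) (φ : J → I) (hφ : Function.Injective φ) : GP T (fun j => L (φ j)) := by
  classical
  intro f g c d hc hd hf hg hsum j hj
  let F : (J → ℕ) → I → ℕ := fun f i => if h : ∃ j, φ j = i then f h.choose else 0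
  have hF : ∀ (f : J → ℕ) j, F f (φ j) = f j := by
    intro f j
    have h1 : ∃ j', φ j' = φ j := ⟨j, rfl⟩
    simp only [F, dif_pos h1]
    rw [hφ h1.choose_spec]
  have hF0 : ∀ (f : J → ℕ) i, (¬ ∃ j, φ j = i) → F f i = 0 := by
    intro f i hi
    simp only [F, dif_neg hi]
  have hsumF : ∀ f : J → ℕ, ∑ i, F f i = ∑ j, f j := by
    intro f
    rw [← sum_image (s := univ) (g := φ) (f := F f) (fun x _ y _ hxy => hφ hxy) |>.trans
      (sum_congr rfl fun j _ => hF f j)]
    symm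
    refine sum_subset (subset_univ _) fun i _ hi => hF0 f i ?_
    rintro ⟨j, rfl⟩
    exact hi (mem_image_of_mem φ (mem_univ j))
  have hmem : ∀ f : J → ℕ, (∀ j, f j = 0 ∨ f j ∈ L (φ j)) → ∀ i, F f i = 0 ∨ F f i ∈ L i := by
    intro f hf i
    by_cases hi : ∃ j, φ j = i
    · obtain ⟨j, rfl⟩ := hi
      rw [hF]
      exact hf j
    · exact Or.inl (hF0 f i hi)
  have h2 := h (F f) (F g) c d hc hd (hmem f hf) (hmem g hg) (by rw [hsumF, hsumF, hsum]) (φ j)
    (by rw [hF]; exact hj)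
  rwa [hF] at h2

/-- the letters of the products -/
def mrg (q : ℕ) (L L' : Set ℕ) : Set ℕ :=
  {a | ∃ b b' t, (b = 0 ∨ b ∈ L) ∧ (b' = 0 ∨ b' ∈ L') ∧ (b ≠ 0 ∨ b' ≠ 0) ∧ t ≤ q ∧ a = b + b' + t}

lemma mrg_zero {q : ℕ} {L L' : Set ℕ} : (0 : ℕ) ∉ mrg q L L' := by
  rintro ⟨b, b', t, _, _, h, _, h0⟩
  omega

/-- merging pairs -/
lemma GP.pair {J : Type} [Fintype J] {T T' q : ℕ} {L : J × Bool → Set ℕ} (h : GP T L)
    (hT : T' + Fintype.card J * q ≤ T) :
    GP T' (fun j => mrg q (L (j, false)) (L (j, true))) := by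
  classical
  intro f g c d hc hd hf hg hsum j hj
  have key : ∀ f : J → ℕ, (∀ j, f j = 0 ∨ f j ∈ mrg q (L (j, false)) (L (j, true))) →
      ∃ (F : J × Bool → ℕ) (t : J → ℕ), (∀ i, F i = 0 ∨ F i ∈ L i) ∧ (∀ j, t j ≤ q) ∧
        (∀ j, F (j, false) + F (j, true) + t j = f j) ∧
        ∀ j, f j = 0 ↔ F (j, false) = 0 ∧ F (j, true) = 0 := by
    intro f hf
    have h1 : ∀ j, ∃ p : ℕ × ℕ × ℕ, (p.1 = 0 ∨ p.1 ∈ L (j, false)) ∧
        (p.2.1 = 0 ∨ p.2.1 ∈ L (j, true)) ∧ p.2.2 ≤ q ∧ p.1 + p.2.1 + p.2.2 = f j ∧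
        (f j = 0 ↔ p.1 = 0 ∧ p.2.1 = 0) := by
      intro j
      rcases hf j with h0 | ⟨b, b', t, hb, hb', hne, ht, h0⟩
      · exact ⟨(0, 0, 0), Or.inl rfl, Or.inl rfl, Nat.zero_le _, by simp [h0], by simp [h0]⟩
      · exact ⟨(b, b', t), hb, hb', ht, h0.symm, by simp only; omega⟩
    choose p hp1 hp2 hp3 hp4 hp5 using h1
    refine ⟨fun i => if i.2 then (p i.1).2.1 else (p i.1).1, fun j => (p j).2.2, fun i => ?_, hp3,
      fun j => ?_, fun j => ?_⟩
    · obtain ⟨j, b⟩ := i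
      cases b
      · simpa using hp1 j
      · simpa using hp2 j
    · simpa using hp4 j
    · simpa using hp5 j
  obtain ⟨F, t, hF1, ht, hF2, hF3⟩ := key f hf
  obtain ⟨G, t', hG1, ht', hG2, hG3⟩ := key g hg
  have hs : ∀ (F : J × Bool → ℕ) (t f : J → ℕ), (∀ j, F (j, false) + F (j, true) + t j = f j) →
      ∑ j, t j + ∑ i, F i = ∑ j, f j := by
    intro F t f hF
    rw [Fintype.sum_prod_type, ← sum_add_distrib]
    refine sum_congr rfl fun j _ => ?_
    rw [Fintype.sum_bool, ← hF j]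
    omega
  have ht1 : ∑ j, t j ≤ Fintype.card J * q := by
    refine (sum_le_sum fun j _ => ht j).trans ?_
    rw [sum_const, card_univ, smul_eq_mul]
  have ht2 : ∑ j, t' j ≤ Fintype.card J * q := by
    refine (sum_le_sum fun j _ => ht' j).trans ?_
    rw [sum_const, card_univ, smul_eq_mul]
  have h2 := h F G (c + ∑ j, t j) (d + ∑ j, t' j) (by omega) (by omega) hF1 hG1 (by
    rw [add_assoc, add_assoc, hs F t f hF2, hs G t' g hG2, hsum])
  have h3 := (hF3 j).1 hj
  exact (hG3 j).2 ⟨h2 _ h3.1, h2 _ h3.2⟩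

/-- two members are separate -/
lemma GP.sep {I : Type} [Fintype I] [DecidableEq I] {T q : ℕ} {L : I → Set ℕ} (h : GP T L)
    (hq : q ≤ T) (hpos : ∀ i, (0 : ℕ) ∉ L i) {i j : I} (hij : i ≠ j) : Sep q (L i) (L j) := by
  classical
  intro x y c hx hy hc hxy
  have key : ∀ x, (x ∈ L i ∨ x ≤ q) → ∃ f c : ℕ, (f = 0 ∨ f ∈ L i) ∧ c ≤ T ∧ c + f = x := by
    rintro x (hx | hx)
    · exact ⟨x, 0, Or.inr hx, Nat.zero_le _, Nat.zero_add _⟩
    · exact ⟨0, x, Or.inl rfl, hx.trans hq, rfl⟩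
  obtain ⟨f, c1, hf, hc1, hfx⟩ := key x hx
  obtain ⟨g, c2, hg, hc2, hgy⟩ := key y hy
  have hsum1 : ∀ (k : I) (a : ℕ), ∑ i', (Pi.single k a : I → ℕ) i' = a := by
    intro k a
    rw [sum_eq_single k]
    · rw [Pi.single_eq_same]
    · intro b _ hb
      rw [Pi.single_eq_of_ne hb]
    · intro h
      exact absurd (mem_univ _) h
  have h1 := h (Pi.single i f) ((Pi.single i g : I → ℕ) + (Pi.single j c : I → ℕ)) c1 c2 hc1 hc2
    (fun i' => by
      by_cases hk : i' = i
      · subst hk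
        rw [Pi.single_eq_same]
        exact hf
      · rw [Pi.single_eq_of_ne hk]
        exact Or.inl rfl)
    (fun i' => by
      rw [Pi.add_apply]
      by_cases hk : i' = i
      · subst hk
        rw [Pi.single_eq_same, Pi.single_eq_of_ne hij, add_zero]
        exact hg
      · rw [Pi.single_eq_of_ne hk, zero_add]
        by_cases hk' : i' = j
        · subst hk'
          rw [Pi.single_eq_same]
          exact Or.inr hc
        · rw [Pi.single_eq_of_ne hk']
          exact Or.inl rfl)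
    (by
      simp only [Pi.add_apply]
      rw [sum_add_distrib, hsum1, hsum1, hsum1]
      omega) j (Pi.single_eq_of_ne (Ne.symm hij) _)
  rw [Pi.add_apply, Pi.single_eq_same, Pi.single_eq_of_ne (Ne.symm hij), zero_add] at h1
  exact hpos j (h1 ▸ hc)

end Pool.Agent.X90.DC
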