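import Pool.Agent.X90.DC.Gen2

/-!
# Functions with the stuffle product and prescribed values in depth one
-/

set_option autoImplicit false

namespace Pool.Agent.X90.DC

open Finset Pool.Agent.Y760.ZF

/-- truncated sums at a list of numbers -/
noncomputable def Zt : List ℂ → List ℕ → ℂ
  | _, [] => 1
  | [], _ :: _ => 0
  | a :: t, s :: l => Zt t (s :: l) + a ^ s * Zt t l

lemma Zt_nil (t : List ℂ) : Zt t [] = 1 := by
  cases t <;> rw [Zt]

lemma sum_map_cons {A : Type} [CommRing A] (F : List ℕ → A) (i : ℕ) (L : List (List ℕ)) :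
    ((L.map (i :: ·)).map F).sum = (L.map fun x => F (i :: x)).sum := by
  rw [List.map_map]
  rfl

/-- **the stuffle product** -/
lemma Zt_mul (t : List ℂ) : ∀ u v : List ℕ, Zt t u * Zt t v = ((sti u v).map (Zt t)).sum := by
  induction t with
  | nil =>
    intro u v
    cases u with
    | nil =>
      rw [sti, Zt_nil]
      simp
    | cons i u =>
      cases v with
      | nil =>
        rw [sti, Zt_nil]
        simp
      | cons j v =>
        rw [sti, Zt, zero_mul, List.map_append, List.map_append, List.sum_append, List.sum_append,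
          sum_map_cons, sum_map_cons, sum_map_cons]
        simp only [Zt]
        simp
  | cons a t ih =>
    intro u v
    cases u with
    | nil =>
      rw [sti, Zt_nil]
      simp
    | cons i u =>
      cases v with
      | nil =>
        rw [sti, Zt_nil]
        simp
      | cons j v =>
        have h1 := ih (i :: u) (j :: v)
        have h2 := ih u (j :: v)
        have h3 := ih (i :: u) v
        have h4 := ih u v
        rw [sti, List.map_append, List.map_append, List.sum_append, List.sum_append,
          sum_map_cons, sum_map_cons, sum_map_cons] at h1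
        rw [sti, List.map_append, List.map_append, List.sum_append, List.sum_append,
          sum_map_cons, sum_map_cons, sum_map_cons]
        have e : ∀ (i : ℕ) (L : List (List ℕ)), (L.map fun x => Zt (a :: t) (i :: x)).sum =
            (L.map fun x => Zt t (i :: x)).sum + a ^ i * (L.map (Zt t)).sum := by
          intro i L
          induction L with
          | nil => simp
          | cons x L ihL =>
            rw [List.map_cons, List.sum_cons, ihL, List.map_cons, List.sum_cons, List.map_cons,
              List.sum_cons, Zt]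
            ring
        rw [e, e, e, ← h2, ← h3, ← h4, Zt, Zt, pow_add]
        have h5 : Zt t (i :: u) * Zt t (j :: v) =
          (List.map (fun x => Zt t (i :: x)) (sti u (j :: v))).sum +
          (List.map (fun x => Zt t (j :: x)) (sti (i :: u) v)).sum +
          (List.map (fun x => Zt t ((i + j) :: x)) (sti u v)).sum := h1
        linear_combination h5

lemma Zt_one (t : List ℂ) (s : ℕ) : Zt t [s] = (t.map fun a => a ^ s).sum := by
  induction t with
  | nil => rw [Zt]; simp
  | cons a t ih =>
    rw [Zt, ih, Zt_nil, List.map_cons, List.sum_cons]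
    ring

lemma sum_list_range (f : ℕ → ℂ) (m : ℕ) : ((List.range m).map f).sum = ∑ j ∈ range m, f j := by
  induction m with
  | zero => simp
  | succ m ih => rw [List.range_succ, List.map_append, List.sum_append, ih, sum_range_succ]; simp

/-- a block -/
lemma block (m : ℕ) (hm : 1 ≤ m) (e : ℂ) : ∃ B : List ℂ, (∀ s, 1 ≤ s → s < m →
    (B.map fun a => a ^ s).sum = 0) ∧ (B.map fun a => a ^ m).sum = e := by
  obtain ⟨l, hl⟩ := IsAlgClosed.exists_pow_nat_eq (e / m) (by omega : 0 < m)
  set ζ : ℂ := Complex.exp (2 * Real.pi * Complex.I / m) with hζ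
  have hprim : IsPrimitiveRoot ζ m := Complex.isPrimitiveRoot_exp m (by omega)
  refine ⟨(List.range m).map fun j => l * ζ ^ j, fun s hs1 hsm => ?_, ?_⟩
  · rw [List.map_map, sum_list_range]
    have h1 : ∑ j ∈ range m, ((fun a => a ^ s) ∘ fun j => l * ζ ^ j) j =
        l ^ s * ∑ j ∈ range m, (ζ ^ s) ^ j := by
      rw [mul_sum]
      refine sum_congr rfl fun j _ => ?_
      simp only [Function.comp, mul_pow]
      rw [← pow_mul, ← pow_mul, mul_comm j s]
    rw [h1]
    have h2 : ζ ^ s ≠ 1 := hprim.pow_ne_one_of_pos_of_lt (by omega) hsm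
    have h3 := mul_neg_geom_sum (ζ ^ s) m
    have h4 : (ζ ^ s) ^ m = 1 := by rw [← pow_mul, mul_comm, pow_mul, hprim.pow_eq_one, one_pow]
    rw [h4, sub_self] at h3
    rcases mul_eq_zero.1 h3 with h5 | h5
    · exact absurd (sub_eq_zero.1 h5).symm h2
    · rw [h5, mul_zero]
  · rw [List.map_map, sum_list_range]
    have h1 : ∀ j ∈ range m, ((fun a => a ^ m) ∘ fun j => l * ζ ^ j) j = e / m := by
      intro j _
      simp only [Function.comp, mul_pow]
      rw [hl, ← pow_mul, mul_comm j m, pow_mul, hprim.pow_eq_one, one_pow, mul_one]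
    rw [sum_congr rfl h1, sum_const, card_range, nsmul_eq_mul]
    have : (m : ℂ) ≠ 0 := by exact_mod_cast (by omega : m ≠ 0)
    field_simp

/-- prescribed power sums -/
lemma powers (S : Finset ℕ) (c : ℕ → ℂ) : (∀ s ∈ S, 1 ≤ s) → ∃ B : List ℂ, ∀ s ∈ S,
    (B.map fun a => a ^ s).sum = c s := by
  classical
  induction S using Finset.induction_on_max with
  | empty => exact fun _ => ⟨[], fun s hs => absurd hs (Finset.notMem_empty s)⟩
  | insert m S hm ih =>
    intro h1
    obtain ⟨B, hB⟩ := ih fun s hs => h1 s (mem_insert_of_mem hs)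
    obtain ⟨B', hB1, hB2⟩ := block m (h1 m (mem_insert_self m S))
      (c m - (B.map fun a => a ^ m).sum)
    refine ⟨B ++ B', fun s hs => ?_⟩
    rw [List.map_append, List.sum_append]
    rcases mem_insert.1 hs with rfl | hs
    · rw [hB2]
      ring
    · rw [hB s hs, hB1 s (h1 s (mem_insert_of_mem hs)) (hm s hs), add_zero]

/-- **prescribed values in depth one** -/
theorem exists_Z {k : ℕ} (s : Fin k → ℕ) (hs : Function.Injective s) (h1 : ∀ j, 1 ≤ s j)
    (c : Fin k → ℂ) : ∃ Z : List ℕ → ℂ,
      (∀ u v, Z u * Z v = ((sti u v).map Z).sum) ∧ ∀ j, Z [s j] = c j := by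
  classical
  obtain ⟨B, hB⟩ := powers (univ.image s)
    (fun a => if h : ∃ j, s j = a then c h.choose else 0) (fun a ha => by
      rw [mem_image] at ha
      obtain ⟨j, -, rfl⟩ := ha
      exact h1 j)
  refine ⟨Zt B, Zt_mul B, fun j => ?_⟩
  rw [Zt_one, hB (s j) (mem_image_of_mem s (mem_univ j))]
  have h2 : ∃ j', s j' = s j := ⟨j, rfl⟩
  rw [dif_pos h2, hs h2.choose_spec]

end Pool.Agent.X90.DC
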