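import Pool.Agent.X90.DC.Gp

/-!
# Relations between multiple zeta values with arbitrary constants: elimination of one constant
-/

set_option autoImplicit false

namespace Pool.Agent.X90.DC

open Finset Pool.Agent.Y760.ZF
open Pool.Agent.Y760.ZG (mz)
open Pool.Agent.X90.DB (append_mem_sti pure_zero mz_two na)

/-- a nontrivial relation with coefficients in the span of `v` between multiple zeta values with first letter in `L`
and letters in `L` or at most `q` -/
def Bd (n M R r : ℕ) (κ C : ℝ) (q : ℕ) (v : Fin M → ℂ) (L : Set ℕ) : Prop :=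
  ∃ (W : Finset (List ℕ)) (a : List ℕ → Fin M → ℤ), W.card ≤ R ∧
    (∀ w ∈ W, w.length ≤ r ∧ Adm n κ w ∧ Hd L q w) ∧
    (∀ w ∈ W, ∀ μ, |(a w μ : ℝ)| ≤ C ^ n) ∧ (∃ w ∈ W, ∃ μ, a w μ ≠ 0) ∧
    ∑ w ∈ W, (∑ μ, (a w μ : ℂ) * v μ) * (mz w : ℂ) = 0

lemma bd_of_last {n M R r q : ℕ} {κ C : ℝ} {v : Fin (M + 2) → ℂ} {L : Set ℕ}
    {W : Finset (List ℕ)} {a : List ℕ → Fin (M + 2) → ℤ} (hR : W.card ≤ R)
    (hW : ∀ w ∈ W, w.length ≤ r ∧ Adm n κ w ∧ Hd L q w)
    (haC : ∀ w ∈ W, ∀ μ, |(a w μ : ℝ)| ≤ C ^ n) (hne : ∃ w ∈ W, ∃ μ, a w μ ≠ 0)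
    (hrel : ∑ w ∈ W, (∑ μ, (a w μ : ℂ) * v μ) * (mz w : ℂ) = 0)
    (hlast : ∀ w ∈ W, a w (Fin.last _) = 0) :
    Bd n (M + 1) R r κ C q (fun j => v j.castSucc) L := by
  refine ⟨W, fun w μ => a w μ.castSucc, hR, hW, fun w hw μ => haC w hw _, ?_, ?_⟩
  · obtain ⟨w, hw, μ, hμ⟩ := hne
    refine ⟨w, hw, ?_⟩
    by_contra hcon
    push Not at hcon
    apply hμ
    refine Fin.lastCases ?_ (fun i => ?_) μ
    · exact hlast w hw
    · exact hcon i
  · rw [← hrel]
    refine sum_congr rfl fun w hw => ?_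
    rw [Fin.sum_univ_castSucc (f := fun μ => (a w μ : ℂ) * v μ), hlast w hw]
    simp

theorem pair_step (M R r : ℕ) (κ C : ℝ) (q : ℕ) (hκ : 0 ≤ κ) (hC : 1 ≤ C) : ∃ n0 : ℕ, ∀ n : ℕ, n0 ≤ n →
    ∀ v : Fin (M + 2) → ℂ, LinearIndependent ℚ v → ∀ L L' : Set ℕ, (0 : ℕ) ∉ L → (0 : ℕ) ∉ L' →
    Sep q L L' →
    Bd n (M + 2) R r κ C q v L → Bd n (M + 2) R r κ C q v L' →
    ¬ Bd n (M + 1) R r κ C q (fun j => v j.castSucc) L →
    ¬ Bd n (M + 1) R r κ C q (fun j => v j.castSucc) L' →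
    Bd n (M + 1) (R * (R * 3 ^ (r + r))) (r + r) (κ + κ) ((R * (R * (2 * 3 ^ (r + r))) + 1) * C ^ 2)
      (2 * q) (fun j => v j.castSucc) (mrg q L L') := by
  classical
  obtain ⟨n0, hpure⟩ := pure_zero R r κ C
  refine ⟨n0 + (2 * r + 1), fun n hn v hv L L' hL0 hL0' hsep hB hB' hnB hnB' => ?_⟩
  obtain ⟨W, a, hR, hW, haC, hane, hra⟩ := hB
  obtain ⟨W', b, hR', hW', hbC, hbne, hrb⟩ := hB'
  set l := Fin.last (M + 1) with hl
  have hal : ∃ w ∈ W, a w l ≠ 0 := by
    by_contra hcon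
    push Not at hcon
    exact hnB (bd_of_last hR hW haC hane hra hcon)
  have hbl : ∃ w ∈ W', b w l ≠ 0 := by
    by_contra hcon
    push Not at hcon
    exact hnB' (bd_of_last hR' hW' hbC hbne hrb hcon)
  set W'' : Finset (List ℕ) := W.biUnion fun w => W'.biUnion fun w' => (sti w w').toFinset with hW''
  have hmem : ∀ w ∈ W, ∀ w' ∈ W', ∀ x ∈ sti w w', x ∈ W'' := by
    intro w hw w' hw' x hx
    rw [hW'', mem_biUnion]
    refine ⟨w, hw, ?_⟩
    rw [mem_biUnion]
    exact ⟨w', hw', List.mem_toFinset.2 hx⟩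
  -- the values
  set A : Fin (M + 2) → ℂ := fun μ => ∑ w ∈ W, (a w μ : ℂ) * (mz w : ℂ) with hA
  set B : Fin (M + 2) → ℂ := fun μ => ∑ w ∈ W', (b w μ : ℂ) * (mz w : ℂ) with hB
  have hra' : ∑ μ, v μ * A μ = 0 := by
    rw [← hra]
    simp only [hA, mul_sum, sum_mul]
    rw [sum_comm]
    exact sum_congr rfl fun w _ => sum_congr rfl fun μ _ => by ring
  have hrb' : ∑ μ, v μ * B μ = 0 := by
    rw [← hrb]
    simp only [hB, mul_sum, sum_mul]
    rw [sum_comm]
    exact sum_congr rfl fun w _ => sum_congr rfl fun μ _ => by ring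
  refine ⟨W'', na W W' a b, ?_, ?_, ?_, ?_, ?_⟩
  · -- the number
    calc W''.card ≤ ∑ w ∈ W, (W'.biUnion fun w' => (sti w w').toFinset).card := card_biUnion_le
      _ ≤ ∑ w ∈ W, ∑ w' ∈ W', (sti w w').toFinset.card := sum_le_sum fun w _ => card_biUnion_le
      _ ≤ ∑ _w ∈ W, ∑ _w' ∈ W', 3 ^ (r + r) := by
        refine sum_le_sum fun w hw => sum_le_sum fun w' hw' => ?_
        refine (List.toFinset_card_le _).trans ((sti_count w w').trans ?_)
        refine Nat.pow_le_pow_right (by norm_num) ?_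
        have := (hW w hw).1
        have := (hW' w' hw').1
        omega
      _ ≤ R * (R * 3 ^ (r + r)) := by
        rw [sum_const, sum_const, smul_eq_mul, smul_eq_mul]
        exact Nat.mul_le_mul hR (Nat.mul_le_mul hR' le_rfl)
  · -- the words
    intro x hx
    rw [hW'', mem_biUnion] at hx
    obtain ⟨w, hw, hx⟩ := hx
    rw [mem_biUnion] at hx
    obtain ⟨w', hw', hx⟩ := hx
    rw [List.mem_toFinset] at hx
    obtain ⟨h1, h2, h3⟩ := hW w hw
    obtain ⟨h1', h2', h3'⟩ := hW' w' hw'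
    have h4 : Cl n (κ * n) r w := ⟨h1, h2.1, h2.2⟩
    have h4' : Cl n (κ * n) r w' := ⟨h1', h2'.1, h2'.2⟩
    obtain ⟨g1, g2, g3⟩ := sti_Cl (by positivity) (by positivity) h4 h4' x hx
    refine ⟨g1, ⟨fun m hm => ⟨(g2 m hm).1, ?_⟩, g3⟩, ?_⟩
    · rw [add_mul]
      exact (g2 m hm).2
    · refine hd_sti (fun a ha => ?_) (fun a ha => ?_) (fun a ha b hb => ?_) (fun a ha b hb => ?_)
        (fun a ha b hb => ?_) (by omega) h3 h3' x hx
      · exact ⟨a, 0, 0, Or.inr ha, Or.inl rfl, Or.inl fun h => hL0 (h ▸ ha), Nat.zero_le _, rfl⟩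
      · exact ⟨0, a, 0, Or.inl rfl, Or.inr ha, Or.inr fun h => hL0' (h ▸ ha), Nat.zero_le _,
          by omega⟩
      · exact ⟨a, b, 0, Or.inr ha, Or.inr hb, Or.inl fun h => hL0 (h ▸ ha), Nat.zero_le _, rfl⟩
      · exact ⟨a, 0, b, Or.inr ha, Or.inl rfl, Or.inl fun h => hL0 (h ▸ ha), hb, by omega⟩
      · exact ⟨0, b, a, Or.inl rfl, Or.inr hb, Or.inr fun h => hL0' (h ▸ hb), ha, by omega⟩
  · -- the height
    intro x _ μ
    rw [na]
    push_cast
    have hC0 : (0 : ℝ) ≤ C := by linarith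
    have h1 : ∀ w ∈ W, ∀ w' ∈ W', |((a w μ.castSucc : ℝ) * b w' l - a w l * b w' μ.castSucc) *
        ((sti w w').countP (· = x) : ℝ)| ≤ (2 * 3 ^ (r + r)) * (C ^ n * C ^ n) := by
      intro w hw w' hw'
      rw [abs_mul, abs_of_nonneg (Nat.cast_nonneg _ : (0 : ℝ) ≤ ((sti w w').countP (· = x) : ℝ))]
      have h2 : |(a w μ.castSucc : ℝ) * b w' l - a w l * b w' μ.castSucc| ≤ 2 * (C ^ n * C ^ n) := by
        refine (abs_sub _ _).trans ?_
        rw [abs_mul, abs_mul]
        have q1 : |(a w μ.castSucc : ℝ)| * |(b w' l : ℝ)| ≤ C ^ n * C ^ n :=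
          mul_le_mul (haC w hw _) (hbC w' hw' _) (abs_nonneg _) (by positivity)
        have q2 : |(a w l : ℝ)| * |(b w' μ.castSucc : ℝ)| ≤ C ^ n * C ^ n :=
          mul_le_mul (haC w hw _) (hbC w' hw' _) (abs_nonneg _) (by positivity)
        linarith
      have h3 : ((sti w w').countP (· = x) : ℝ) ≤ 3 ^ (r + r) := by
        have q1 : (sti w w').countP (· = x) ≤ 3 ^ (r + r) := by
          refine List.countP_le_length.trans ((sti_count w w').trans ?_)
          refine Nat.pow_le_pow_right (by norm_num) ?_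
          have := (hW w hw).1
          have := (hW' w' hw').1
          omega
        exact_mod_cast q1
      calc |(a w μ.castSucc : ℝ) * b w' l - a w l * b w' μ.castSucc| *
            ((sti w w').countP (· = x) : ℝ) ≤ (2 * (C ^ n * C ^ n)) * 3 ^ (r + r) :=
            mul_le_mul h2 h3 (Nat.cast_nonneg _) (by positivity)
        _ = _ := by ring
    have hRr : (0 : ℝ) ≤ R := Nat.cast_nonneg _
    have hWr : (W.card : ℝ) ≤ R := by exact_mod_cast hR
    have hWr' : (W'.card : ℝ) ≤ R := by exact_mod_cast hR'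
    calc |∑ w ∈ W, ∑ w' ∈ W', ((a w μ.castSucc : ℝ) * b w' l - a w l * b w' μ.castSucc) *
          ((sti w w').countP (· = x) : ℝ)| ≤
        ∑ w ∈ W, ∑ w' ∈ W', |((a w μ.castSucc : ℝ) * b w' l - a w l * b w' μ.castSucc) *
          ((sti w w').countP (· = x) : ℝ)| := by
          refine (abs_sum_le_sum_abs _ _).trans (sum_le_sum fun w _ => ?_)
          exact abs_sum_le_sum_abs _ _
      _ ≤ ∑ _w ∈ W, ∑ _w' ∈ W', (2 * 3 ^ (r + r)) * (C ^ n * C ^ n) :=
          sum_le_sum fun w hw => sum_le_sum fun w' hw' => h1 w hw w' hw'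
      _ = (W.card : ℝ) * (W'.card * ((2 * 3 ^ (r + r)) * (C ^ n * C ^ n))) := by
          rw [sum_const, sum_const, nsmul_eq_mul, nsmul_eq_mul]
      _ ≤ R * (R * ((2 * 3 ^ (r + r)) * (C ^ n * C ^ n))) := by gcongr
      _ = (R * (R * (2 * 3 ^ (r + r)))) * (C ^ n * C ^ n) := by ring
      _ ≤ ((R * (R * (2 * 3 ^ (r + r))) + 1) * C ^ 2) ^ n := by
          have q0 : (C ^ 2) ^ n = C ^ n * C ^ n := by rw [← pow_mul, two_mul, pow_add]
          rw [mul_pow, q0]
          refine mul_le_mul_of_nonneg_right ?_ (by positivity)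
          have q1 : (1 : ℝ) ≤ R * (R * (2 * 3 ^ (r + r))) + 1 :=
            le_add_of_nonneg_left (by positivity)
          have q2 := pow_le_pow_right₀ q1 (show 1 ≤ n by omega)
          rw [pow_one] at q2
          linarith
  · -- nonzero
    by_contra hcon
    push Not at hcon
    have h1 : ∀ w ∈ W, ∀ w' ∈ W', ∀ μ : Fin (M + 1),
        a w μ.castSucc * b w' l = a w l * b w' μ.castSucc := by
      by_contra hcon2
      -- a pair with a long first word
      obtain ⟨w, hw, hmax, w', hw', μ, hne⟩ : ∃ w ∈ W, (∀ w1 ∈ W, w.length < w1.length →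
          ∀ w' ∈ W', ∀ μ : Fin (M + 1), a w1 μ.castSucc * b w' l = a w1 l * b w' μ.castSucc) ∧
          ∃ w' ∈ W', ∃ μ : Fin (M + 1), a w μ.castSucc * b w' l ≠ a w l * b w' μ.castSucc := by
        set W1 := W.filter fun w => ∃ w' ∈ W', ∃ μ : Fin (M + 1),
          a w μ.castSucc * b w' l ≠ a w l * b w' μ.castSucc with hW1
        have hne1 : W1.Nonempty := by
          push Not at hcon2
          obtain ⟨w, hw, w', hw', μ, h⟩ := hcon2
          exact ⟨w, mem_filter.2 ⟨hw, w', hw', μ, h⟩⟩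
        obtain ⟨w, hw, hmax⟩ := exists_max_image W1 List.length hne1
        rw [hW1, mem_filter] at hw
        refine ⟨w, hw.1, fun w1 hw1 hlt w' hw' μ => ?_, hw.2⟩
        by_contra hcon3
        have := hmax w1 (mem_filter.2 ⟨hw1, w', hw', μ, hcon3⟩)
        omega
      have h2 := hcon (w ++ w') (hmem w hw w' hw' _ (append_mem_sti w w')) μ
      rw [na, sum_eq_single w, sum_eq_single w'] at h2
      · rcases mul_eq_zero.1 h2 with h3 | h3
        · exact hne (by linarith)
        · have h4 : (sti w w').countP (· = w ++ w') = 0 := by exact_mod_cast h3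
          rw [List.countP_eq_zero] at h4
          exact h4 _ (append_mem_sti w w') (by simp)
      · intro w1 hw1 hne1
        have h3 : (sti w w1).countP (· = w ++ w') = 0 := by
          rw [List.countP_eq_zero]
          intro x hx
          simp only [decide_eq_true_eq]
          rintro rfl
          exact hne1 (append_sti hsep (hW w hw).2.2.2 (hW w hw).2.2.2 (hW' w1 hw1).2.2.1 hx le_rfl).2
        rw [h3, Nat.cast_zero, mul_zero]
      · intro h
        exact absurd hw' h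
      · intro w1 hw1 hne1
        refine sum_eq_zero fun w1' hw1' => ?_
        rcases lt_or_ge w.length w1.length with hlt | hle
        · rw [hmax w1 hw1 hlt w1' hw1' μ, sub_self, zero_mul]
        have h3 : (sti w1 w1').countP (· = w ++ w') = 0 := by
          rw [List.countP_eq_zero]
          intro x hx
          simp only [decide_eq_true_eq]
          rintro rfl
          exact hne1 (append_sti hsep (hW w hw).2.2.2 (hW w1 hw1).2.2.2 (hW' w1' hw1').2.2.1 hx
            hle).1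
        rw [h3, Nat.cast_zero, mul_zero]
      · intro h
        exact absurd hw h
    obtain ⟨w1, hw1, hb1⟩ := hbl
    have h1' : ∀ w ∈ W, ∀ μ, a w μ * b w1 l = a w l * b w1 μ := by
      intro w hw μ
      refine Fin.lastCases ?_ (fun i => ?_) μ
      · rfl
      · exact h1 w hw w1 hw1 i
    have h3 : ∀ μ, (b w1 l : ℂ) * A μ = (b w1 μ : ℂ) * A l := by
      intro μ
      simp only [hA, mul_sum]
      refine sum_congr rfl fun w hw => ?_
      have h4 : (a w μ : ℂ) * (b w1 l : ℂ) = (a w l : ℂ) * (b w1 μ : ℂ) := by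
        exact_mod_cast h1' w hw μ
      calc (b w1 l : ℂ) * ((a w μ : ℂ) * (mz w : ℂ)) = ((a w μ : ℂ) * (b w1 l : ℂ)) * (mz w : ℂ) := by
            ring
        _ = _ := by rw [h4]; ring
    have h5 : (∑ μ, (b w1 μ : ℂ) * v μ) * A l = 0 := by
      calc (∑ μ, (b w1 μ : ℂ) * v μ) * A l = ∑ μ, v μ * ((b w1 μ : ℂ) * A l) := by
            rw [sum_mul]
            exact sum_congr rfl fun μ _ => by ring
        _ = ∑ μ, v μ * ((b w1 l : ℂ) * A μ) := by simp only [h3]
        _ = (b w1 l : ℂ) * ∑ μ, v μ * A μ := by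
            rw [mul_sum]
            exact sum_congr rfl fun μ _ => by ring
        _ = 0 := by rw [hra', mul_zero]
    rcases mul_eq_zero.1 h5 with h6 | h6
    · have h7 := Fintype.linearIndependent_iff.1 hv (fun μ => (b w1 μ : ℚ)) (by
        rw [← h6]
        refine sum_congr rfl fun μ _ => ?_
        rw [Algebra.smul_def]
        simp) l
      apply hb1
      exact_mod_cast h7
    · obtain ⟨w2, hw2, ha2⟩ := hal
      exact ha2 (hpure n (by omega) W hR (fun w hw => ⟨(hW w hw).1, (hW w hw).2.1⟩)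
        (fun w => a w l) (fun w hw => haC w hw l) h6 w2 hw2)
  · -- the relation
    have hprod : ∀ w ∈ W, ∀ w' ∈ W', (mz w : ℂ) * (mz w' : ℂ) =
        ∑ x ∈ W'', (((sti w w').countP (· = x) : ℕ) : ℂ) * (mz x : ℂ) := by
      intro w hw w' hw'
      have h1 := mz_two hκ (by omega) (hW w hw).1 (hW' w' hw').1 (hW w hw).2.1 (hW' w' hw').2.1
      rw [list_count _ mz W'' (hmem w hw w' hw')] at h1
      have h2 : ((mz w * mz w' : ℝ) : ℂ) =
        ((∑ x ∈ W'', ((List.countP (fun y => decide (y = x)) (sti w w') : ℕ) : ℝ) * mz x : ℝ) : ℂ) := by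
        rw [h1]
      push_cast at h2
      exact h2
    have h1 : ∑ x ∈ W'', (∑ μ : Fin (M + 1), (na W W' a b x μ : ℂ) * v μ.castSucc) * (mz x : ℂ) =
        ∑ w ∈ W, ∑ w' ∈ W', (∑ μ : Fin (M + 1), ((a w μ.castSucc : ℂ) * b w' l -
          a w l * b w' μ.castSucc) * v μ.castSucc) * ((mz w : ℂ) * (mz w' : ℂ)) := by
      rw [sum_congr rfl fun w hw => sum_congr rfl fun w' hw' => by rw [hprod w hw w' hw']]
      have e1 : ∀ x, (∑ μ : Fin (M + 1), (na W W' a b x μ : ℂ) * v μ.castSucc) =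
          ∑ w ∈ W, ∑ w' ∈ W', (∑ μ : Fin (M + 1), ((a w μ.castSucc : ℂ) * b w' l -
            a w l * b w' μ.castSucc) * v μ.castSucc) * (((sti w w').countP (· = x) : ℕ) : ℂ) := by
        intro x
        simp only [na]
        push_cast
        simp only [sum_mul]
        rw [sum_comm]
        refine sum_congr rfl fun w _ => ?_
        rw [sum_comm]
        exact sum_congr rfl fun w' _ => sum_congr rfl fun μ _ => by ring
      simp only [e1]
      obtain ⟨K, hK⟩ : ∃ K : List ℕ → List ℕ → ℂ, ∀ w w', (∑ μ : Fin (M + 1),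
          ((a w μ.castSucc : ℂ) * b w' l - a w l * b w' μ.castSucc) * v μ.castSucc) = K w w' :=
        ⟨_, fun _ _ => rfl⟩
      simp only [hK, sum_mul, mul_sum]
      rw [sum_comm]
      refine sum_congr rfl fun w _ => ?_
      rw [sum_comm]
      exact sum_congr rfl fun w' _ => sum_congr rfl fun x _ => by ring
    rw [h1]
    have h2 : ∑ w ∈ W, ∑ w' ∈ W', (∑ μ : Fin (M + 1), ((a w μ.castSucc : ℂ) * b w' l -
          a w l * b w' μ.castSucc) * v μ.castSucc) * ((mz w : ℂ) * (mz w' : ℂ)) =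
        (∑ μ : Fin (M + 1), v μ.castSucc * A μ.castSucc) * B l -
          A l * ∑ μ : Fin (M + 1), v μ.castSucc * B μ.castSucc := by
      have e1 : ∀ w w', (∑ μ : Fin (M + 1), ((a w μ.castSucc : ℂ) * b w' l -
          a w l * b w' μ.castSucc) * v μ.castSucc) =
          (∑ μ : Fin (M + 1), (a w μ.castSucc : ℂ) * v μ.castSucc) * b w' l -
            a w l * ∑ μ : Fin (M + 1), (b w' μ.castSucc : ℂ) * v μ.castSucc := by
        intro w w'
        rw [sum_mul, mul_sum, ← sum_sub_distrib]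
        exact sum_congr rfl fun μ _ => by ring
      have e2 : ∑ μ : Fin (M + 1), v μ.castSucc * A μ.castSucc =
          ∑ w ∈ W, (∑ μ : Fin (M + 1), (a w μ.castSucc : ℂ) * v μ.castSucc) * (mz w : ℂ) := by
        simp only [hA, mul_sum, sum_mul]
        rw [sum_comm]
        exact sum_congr rfl fun w _ => sum_congr rfl fun μ _ => by ring
      have e3 : ∑ μ : Fin (M + 1), v μ.castSucc * B μ.castSucc =
          ∑ w ∈ W', (∑ μ : Fin (M + 1), (b w μ.castSucc : ℂ) * v μ.castSucc) * (mz w : ℂ) := by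
        simp only [hB, mul_sum, sum_mul]
        rw [sum_comm]
        exact sum_congr rfl fun w _ => sum_congr rfl fun μ _ => by ring
      rw [e2, e3]
      simp only [e1]
      obtain ⟨α, hα⟩ : ∃ α : List ℕ → ℂ, ∀ w, (∑ μ : Fin (M + 1), (a w μ.castSucc : ℂ) *
          v μ.castSucc) = α w := ⟨_, fun _ => rfl⟩
      obtain ⟨β, hβ⟩ : ∃ β : List ℕ → ℂ, ∀ w, (∑ μ : Fin (M + 1), (b w μ.castSucc : ℂ) *
          v μ.castSucc) = β w := ⟨_, fun _ => rfl⟩
      simp only [hα, hβ, hA, hB]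
      rw [sum_mul_sum, sum_mul_sum, ← sum_sub_distrib]
      refine sum_congr rfl fun w _ => ?_
      rw [← sum_sub_distrib]
      exact sum_congr rfl fun w' _ => by ring
    rw [h2]
    rw [Fin.sum_univ_castSucc] at hra' hrb'
    have h3 : ∑ μ : Fin (M + 1), v μ.castSucc * A μ.castSucc = -(v l * A l) := by
      linear_combination hra'
    have h4 : ∑ μ : Fin (M + 1), v μ.castSucc * B μ.castSucc = -(v l * B l) := by
      linear_combination hrb'
    rw [h3, h4]
    ring

end Pool.Agent.X90.DC
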