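import Pool.Agent.X90.DC.Cnt

/-!
# From polynomials to relations between multiple zeta values
-/

set_option autoImplicit false

namespace Pool.Agent.X90.DC

open Finset Pool.Agent.Y760.ZF
open Pool.Agent.Y760.ZG (mz)
open Pool.Agent.X90.DA (fx eval_sum)
open Pool.Agent.X90.DB

/-- finitely many complex numbers, one of them nonzero, as integral combinations of independent ones among them -/
lemma indep' {Q : Type} [Fintype Q] (u : Q → ℂ) (hu : ∃ q, u q ≠ 0) :
    ∃ (M : ℕ) (_ : M + 1 ≤ Fintype.card Q) (g : Fin (M + 1) → Q)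
      (_ : LinearIndependent ℚ fun μ => u (g μ))
      (Δ : ℕ) (_ : Δ ≠ 0) (ρ : Q → Fin (M + 1) → ℤ),
      ∀ q, (Δ : ℂ) * u q = ∑ μ, (ρ q μ : ℂ) * u (g μ) := by
  classical
  obtain ⟨κ, a, hinj, hspan, hind⟩ := exists_linearIndependent' ℚ u
  have : Finite κ := Finite.of_injective a hinj
  have : Fintype κ := Fintype.ofFinite κ
  have hne : Nonempty κ := by
    by_contra h
    rw [not_nonempty_iff] at h
    obtain ⟨q, hq⟩ := hu
    have h1 : u q ∈ Submodule.span ℚ (Set.range u) := Submodule.subset_span ⟨q, rfl⟩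
    rw [← hspan, Set.range_eq_empty, Submodule.span_empty, Submodule.mem_bot] at h1
    exact hq h1
  obtain ⟨M, hM⟩ : ∃ M, Fintype.card κ = M + 1 := ⟨Fintype.card κ - 1, by
    have := Fintype.card_pos_iff.2 hne
    omega⟩
  let e : Fin (M + 1) ≃ κ := (Fintype.equivFinOfCardEq hM).symm
  have hmem : ∀ q, ∃ c : κ → ℚ, ∑ i, c i • u (a i) = u q := by
    intro q
    have h1 : u q ∈ Submodule.span ℚ (Set.range (u ∘ a)) := by
      rw [hspan]
      exact Submodule.subset_span ⟨q, rfl⟩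
    exact (Submodule.mem_span_range_iff_exists_fun ℚ).1 h1
  choose c hc using hmem
  obtain ⟨Δ, hΔ, z, hz⟩ := DA.common_den (fun p : Q × Fin (M + 1) => c p.1 (e p.2))
  refine ⟨M, ?_, fun μ => a (e μ), ?_, Δ, hΔ, fun q μ => z (q, μ), fun q => ?_⟩
  · rw [← hM]
    exact Fintype.card_le_of_injective a hinj
  · exact hind.comp e e.injective
  · rw [← hc q, mul_sum, ← e.sum_comp]
    refine sum_congr rfl fun μ _ => ?_
    have h1 := congrArg (fun y : ℚ => (y : ℂ)) (hz (q, μ))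
    simp only at h1
    push_cast at h1
    rw [← h1, Rat.smul_def]
    ring

section

variable {t k r D M : ℕ}

/-- the coefficients of the relation -/
noncomputable def cf (P : MvPolynomial (Fin t ⊕ Fin r) ℤ) (ρ : (Fin t → Fin (D + 1)) → Fin (M + 1) → ℤ)
    (W : Fin r → List ℕ) (x : List ℕ) (μ : Fin (M + 1)) : ℤ :=
  ∑ e : Fin r → Fin (D + 1), (∑ m : Fin t → Fin (D + 1), P.coeff (fx (Sum.elim m e)) * ρ m μ) *
    ((stil (lst W fun i => (e i : ℕ))).countP (· = x) : ℤ)

/-- the words of the relation -/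
def La (D : ℕ) (W : Fin r → List ℕ) : Finset (List ℕ) :=
  (univ : Finset (Fin r → Fin (D + 1))).biUnion fun e => (stil (lst W fun i => (e i : ℕ))).toFinset

/-- the value of the polynomial -/
lemma val_eq {A : Type} [CommRing A] {P : MvPolynomial (Fin t ⊕ Fin r) ℤ}
    (hP : P.totalDegree ≤ D) {x : Fin t → A} {v : Fin (M + 1) → A} {Δ : ℕ}
    {ρ : (Fin t → Fin (D + 1)) → Fin (M + 1) → ℤ}
    (h2 : ∀ m : Fin t → Fin (D + 1), (Δ : A) * ∏ j, x j ^ ((m j : Fin (D + 1)) : ℕ) =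
      ∑ μ, (ρ m μ : A) * v μ)
    (W : Fin r → List ℕ) (Z : List ℕ → A)
    (hZ : ∀ e : Fin r → Fin (D + 1), ∏ i, Z (W i) ^ ((e i : Fin (D + 1)) : ℕ) =
      ((stil (lst W fun i => (e i : ℕ))).map Z).sum) :
    (Δ : A) * MvPolynomial.aeval (Sum.elim x fun i => Z (W i)) P =
      ∑ w ∈ La D W, (∑ μ, (cf P ρ W w μ : A) * v μ) * Z w := by
  classical
  rw [eval_sum hP, mul_sum]
  have h1 : ∀ e : Fin r → Fin (D + 1), ((stil (lst W fun i => (e i : ℕ))).map Z).sum =
      ∑ w ∈ La D W, (((stil (lst W fun i => (e i : ℕ))).countP (· = w) : ℕ) : A) * Z w := by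
    intro e
    refine list_countA _ _ _ fun w hw => ?_
    rw [La, mem_biUnion]
    exact ⟨e, mem_univ _, List.mem_toFinset.2 hw⟩
  calc ∑ e : Fin r → Fin (D + 1), (Δ : A) * ((∑ m : Fin t → Fin (D + 1),
        ((P.coeff (fx (Sum.elim m e)) : ℤ) : A) *
          ∏ j, (x j) ^ ((m j : Fin (D + 1)) : ℕ)) *
        ∏ i, Z (W i) ^ ((e i : Fin (D + 1)) : ℕ)) =
      ∑ e : Fin r → Fin (D + 1), ∑ w ∈ La D W, (∑ μ, ((∑ m : Fin t → Fin (D + 1),
        ((P.coeff (fx (Sum.elim m e)) : ℤ) : A) * (ρ m μ : A)) *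
          (((stil (lst W fun i => (e i : ℕ))).countP (· = w) : ℕ) : A)) * v μ) *
          Z w := by
        refine sum_congr rfl fun e _ => ?_
        rw [hZ e, h1 e, ← mul_assoc, mul_sum, mul_sum]
        refine sum_congr rfl fun w _ => ?_
        have h4 : (∑ m : Fin t → Fin (D + 1), (Δ : A) * (((P.coeff (fx (Sum.elim m e)) : ℤ) : A) *
            ∏ j, (x j) ^ ((m j : Fin (D + 1)) : ℕ))) =
            ∑ μ, (∑ m : Fin t → Fin (D + 1),
              ((P.coeff (fx (Sum.elim m e)) : ℤ) : A) * (ρ m μ : A)) * v μ := by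
          simp only [sum_mul]
          rw [sum_comm]
          refine sum_congr rfl fun m _ => ?_
          rw [mul_left_comm, h2 m, mul_sum]
          exact sum_congr rfl fun μ _ => by ring
        rw [h4, sum_mul, sum_mul]
        refine sum_congr rfl fun μ _ => ?_
        ring
    _ = _ := by
        rw [sum_comm]
        refine sum_congr rfl fun w _ => ?_
        rw [← sum_mul]
        congr 1
        rw [sum_comm]
        refine sum_congr rfl fun μ _ => ?_
        rw [← sum_mul]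
        congr 1
        unfold cf
        push_cast
        rfl

end


/-- good patterns: the first letter depends on the variables -/
def Gd {k : ℕ} (w : List (ℕ × (Fin k → ℕ))) : Prop :=
  (∀ u ∈ w.head?, u.2 ≠ 0) ∧ ∀ u ∈ w, u.2 ≠ 0 ∨ 1 ≤ u.1

/-- the letters of an index -/
lemma ix_Hd {k K0 : ℕ} (s : Fin k → ℕ) {w : List (ℕ × (Fin k → ℕ))} (hw : Gd w)
    (hK0 : ∀ u ∈ w, u.1 ≤ K0 ∧ ∀ j, u.2 j ≤ K0) : Hd (Lt K0 s) K0 (ix s w) := by
  constructor
  · intro a ha
    cases w with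
    | nil => simp [ix] at ha
    | cons u w =>
      rw [ix, List.map_cons, List.head?_cons, Option.mem_some_iff] at ha
      subst ha
      exact ⟨u.1, u.2, (hK0 u List.mem_cons_self).1, (hK0 u List.mem_cons_self).2,
        hw.1 u (by simp), rfl⟩
  · intro a ha
    rw [ix, List.mem_map] at ha
    obtain ⟨u, hu, rfl⟩ := ha
    by_cases h : u.2 = 0
    · right
      simp only [h, Pi.zero_apply, zero_mul, sum_const_zero, add_zero]
      exact (hK0 u hu).1
    · exact Or.inl ⟨u.1, u.2, (hK0 u hu).1, (hK0 u hu).2, h, rfl⟩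

lemma ix_pos {k : ℕ} {s : Fin k → ℕ} (hs : ∀ j, 1 ≤ s j) {w : List (ℕ × (Fin k → ℕ))}
    (hw : ∀ u ∈ w, u.2 ≠ 0 ∨ 1 ≤ u.1) : ∀ a ∈ ix s w, 1 ≤ a := by
  intro a ha
  rw [ix, List.mem_map] at ha
  obtain ⟨u, hu, rfl⟩ := ha
  rcases hw u hu with h | h
  · obtain ⟨j, hj⟩ : ∃ j, u.2 j ≠ 0 := by
      by_contra hcon
      push Not at hcon
      exact h (funext hcon)
    have h1 : u.2 j * s j ≤ ∑ j, u.2 j * s j :=
      single_le_sum (f := fun j => u.2 j * s j) (fun _ _ => Nat.zero_le _) (mem_univ j)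
    have h2 : 1 ≤ u.2 j * s j := Nat.mul_pos (Nat.pos_of_ne_zero hj) (hs j)
    omega
  · omega

lemma ix_Cl {k K0 ℓ N κ : ℕ} {s : Fin k → ℕ} (hs : ∀ j, N ≤ s j ∧ s j ≤ κ * N) (hN : 1 ≤ N)
    {w : List (ℕ × (Fin k → ℕ))} (hw : Gd w)
    (hK0 : ∀ u ∈ w, u.1 ≤ K0 ∧ ∀ j, u.2 j ≤ K0) (hℓ : w.length ≤ ℓ) :
    Cl N ((K0 * (1 + k * κ) : ℕ) * (N : ℝ)) ℓ (ix s w) := by
  refine ⟨by rw [ix, List.length_map]; exact hℓ, fun m hm => ?_, fun m hm => ?_⟩
  · refine ⟨ix_pos (fun j => hN.trans (hs j).1) hw.2 m hm, ?_⟩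
    rw [ix, List.mem_map] at hm
    obtain ⟨u, hu, rfl⟩ := hm
    have h1 : ∑ j, u.2 j * s j ≤ ∑ _j : Fin k, K0 * (κ * N) :=
      sum_le_sum fun j _ => Nat.mul_le_mul ((hK0 u hu).2 j) (hs j).2
    rw [sum_const, card_univ, Fintype.card_fin, smul_eq_mul] at h1
    have h2 : K0 ≤ K0 * N := Nat.le_mul_of_pos_right _ hN
    have h3 : u.1 + ∑ j, u.2 j * s j ≤ K0 * (1 + k * κ) * N := by
      calc u.1 + ∑ j, u.2 j * s j ≤ K0 * N + k * (K0 * (κ * N)) := by
            have := (hK0 u hu).1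
            omega
        _ = K0 * (1 + k * κ) * N := by ring
    exact_mod_cast h3
  · exact Lt_ge (fun j => (hs j).1) ((ix_Hd s hw hK0).1 m hm)

lemma ix_Ad {k : ℕ} {s : Fin k → ℕ} (hs : ∀ j, 2 ≤ s j)
    {w : List (ℕ × (Fin k → ℕ))} (hw : Gd w) : ix s w = [] ∨ Ad (ix s w) := by
  have h1 : ∀ a ∈ ix s w, 1 ≤ a := ix_pos (fun j => le_trans (by norm_num) (hs j)) hw.2
  cases w with
  | nil => exact Or.inl rfl
  | cons u w =>
    right
    have h0 := hw.1 u (by simp)
    rw [ix, List.map_cons] at h1 ⊢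
    refine ⟨?_, fun a ha => h1 a (List.mem_cons_of_mem _ ha)⟩
    obtain ⟨j, hj⟩ : ∃ j, u.2 j ≠ 0 := by
      by_contra hcon
      push Not at hcon
      exact h0 (funext hcon)
    have h1 : u.2 j * s j ≤ ∑ j, u.2 j * s j :=
      single_le_sum (f := fun j => u.2 j * s j) (fun _ _ => Nat.zero_le _) (mem_univ j)
    have h2 : s j ≤ u.2 j * s j := Nat.le_mul_of_pos_left _ (Nat.pos_of_ne_zero hj)
    have := hs j
    omega

section

variable {A : Type} [CommRing A]

lemma ex_mul' {Z : List ℕ → A} (hZ : ∀ u v, Ad u → Ad v → Z u * Z v = ((sti u v).map Z).sum)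
    {u v : List ℕ} (hu : u = [] ∨ Ad u) (hv : v = [] ∨ Ad v) :
    ex Z u * ex Z v = ((sti u v).map (ex Z)).sum := by
  rcases hu with rfl | hu
  · rw [ex_nil, one_mul, sti]
    simp
  · exact ex_mul hZ hu hv

lemma sti_ad' {u v : List ℕ} (hu : u = [] ∨ Ad u) (hv : v = [] ∨ Ad v) :
    ∀ x ∈ sti u v, x = [] ∨ Ad x := by
  intro x hx
  rcases hu with rfl | hu
  · rw [sti, List.mem_singleton] at hx
    exact hx ▸ hv
  · rcases hv with rfl | hv
    · rw [sti_nil_right, List.mem_singleton] at hx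
      exact hx ▸ Or.inr hu
    · exact Or.inr (ad_sti hu hv x hx)

lemma stil_ad' (M : List (List ℕ)) (hM : ∀ u ∈ M, u = [] ∨ Ad u) :
    ∀ x ∈ stil M, x = [] ∨ Ad x := by
  induction M with
  | nil =>
    intro x hx
    rw [stil, List.mem_singleton] at hx
    exact Or.inl hx
  | cons u M ih =>
    intro x hx
    rw [stil, List.mem_flatMap] at hx
    obtain ⟨v, hv, hx⟩ := hx
    exact sti_ad' (hM u List.mem_cons_self)
      (ih (fun u hu => hM u (List.mem_cons_of_mem _ hu)) v hv) x hx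

lemma prod_ex' {Z : List ℕ → A} (hZ : ∀ u v, Ad u → Ad v → Z u * Z v = ((sti u v).map Z).sum)
    (M : List (List ℕ)) (hM : ∀ u ∈ M, u = [] ∨ Ad u) :
    (M.map (ex Z)).prod = ((stil M).map (ex Z)).sum := by
  induction M with
  | nil =>
    rw [stil]
    simp [ex_nil]
  | cons u M ih =>
    have hM' : ∀ u ∈ M, u = [] ∨ Ad u := fun u hu => hM u (List.mem_cons_of_mem _ hu)
    rw [List.map_cons, List.prod_cons, ih hM', stil]
    have h3 := stil_ad' M hM'
    have hu := hM u List.mem_cons_self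
    clear ih
    revert h3
    generalize stil M = T
    intro h3
    induction T with
    | nil => simp
    | cons v T ih2 =>
      rw [List.map_cons, List.sum_cons, mul_add, List.flatMap_cons, List.map_append,
        List.sum_append, ih2 fun v' hv' => h3 v' (List.mem_cons_of_mem _ hv')]
      congr 1
      exact ex_mul' hZ hu (h3 v List.mem_cons_self)

end

/-- `P(y, Z(w_1), …)` vanishes for all `y` with the relations of `x` and all `Z` with the stuffle product -/
def Triv {t r : ℕ} (x : Fin t → ℂ) (W : Fin r → List ℕ) (P : MvPolynomial (Fin t ⊕ Fin r) ℤ) :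
    Prop :=
  ∀ (A : Type) [CommRing A] [Algebra ℚ A] (y : Fin t → A) (Z : List ℕ → A),
    (∀ Q : MvPolynomial (Fin t) ℤ, MvPolynomial.aeval x Q = 0 → MvPolynomial.aeval y Q = 0) →
    (∀ u v, Ad u → Ad v → Z u * Z v = ((sti u v).map Z).sum) →
    MvPolynomial.aeval (Sum.elim y fun i => ex Z (W i)) P = 0

/-- **the dichotomy** -/
theorem dich (t k r D : ℕ) (w : Fin r → List (ℕ × (Fin k → ℕ)))
    (hw : ∀ i, Gd (w i)) (κ K0 ℓ : ℕ)
    (hK0 : ∀ i, ∀ u ∈ w i, u.1 ≤ K0 ∧ ∀ j, u.2 j ≤ K0) (hℓ : ∀ i, (w i).length ≤ ℓ) (C : ℝ)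
    (x : Fin t → ℂ) :
    ∃ (M : ℕ) (_ : M + 1 ≤ (D + 1) ^ t) (v : Fin (M + 1) → ℂ) (_ : LinearIndependent ℚ v)
      (C' : ℝ) (_ : 1 ≤ C'), ∀ N : ℕ, r * D * ℓ + 2 ≤ N → ∀ s : Fin k → ℕ,
      (∀ j, N ≤ s j ∧ s j ≤ κ * N) → ∀ P : MvPolynomial (Fin t ⊕ Fin r) ℤ, P.totalDegree ≤ D →
      (∀ m, |((P.coeff m : ℤ) : ℝ)| ≤ C ^ N) →
      MvPolynomial.aeval (Sum.elim x fun i => ((mz (ix s (w i)) : ℝ) : ℂ)) P = 0 →
      Bd N (M + 1) ((D + 1) ^ r * (3 ^ (r * D * ℓ)) ^ (r * D)) (r * D * ℓ)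
        ((r * D * (K0 * (1 + k * κ)) : ℕ) : ℝ) C' (r * D * K0) v (Lt (r * D * K0) s) ∨
      Triv x (fun i => ix s (w i)) P := by
  classical
  obtain ⟨M, hM, g, hv, Δ, hΔ, ρ, hρ⟩ := indep'
    (fun m : Fin t → Fin (D + 1) => ∏ j, x j ^ ((m j : Fin (D + 1)) : ℕ)) ⟨0, by simp⟩
  rw [Fintype.card_fun, Fintype.card_fin, Fintype.card_fin] at hM
  set S : ℕ := (3 ^ (r * D * ℓ)) ^ (r * D) with hS
  set Sρ : ℝ := ∑ m : Fin t → Fin (D + 1), ∑ μ, |(ρ m μ : ℝ)| with hSρ
  have hSρ0 : 0 ≤ Sρ := by positivity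
  set C1 : ℝ := ((D + 1) ^ r * S * Sρ + 1) with hC1
  have hC11 : 1 ≤ C1 := by
    rw [hC1]
    exact le_add_of_nonneg_left (by positivity)
  have hC0 : 0 ≤ |C| := abs_nonneg C
  refine ⟨M, hM, _, hv, C1 * (1 + |C|), by nlinarith, fun N hN s hs P hPD hPC hP0 => ?_⟩
  have hN1 : 1 ≤ N := by omega
  set W : Fin r → List ℕ := fun i => ix s (w i) with hW
  -- the monomials
  have hlen : ∀ e : Fin r → Fin (D + 1), (lst W fun i => (e i : ℕ)).length ≤ r * D := by
    intro e
    rw [length_lst]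
    calc ∑ i, ((e i : Fin (D + 1)) : ℕ) ≤ ∑ _i : Fin r, D :=
          sum_le_sum fun i _ => Nat.lt_succ_iff.1 (e i).2
      _ = r * D := by simp
  have hCl : ∀ e : Fin r → Fin (D + 1), ∀ u ∈ lst W fun i => (e i : ℕ),
      Cl N ((K0 * (1 + k * κ) : ℕ) * (N : ℝ)) ℓ u := by
    intro e u hu
    obtain ⟨i, rfl⟩ := mem_lst hu
    exact ix_Cl hs hN1 (hw i) (hK0 i) (hℓ i)
  have hcnt : ∀ e : Fin r → Fin (D + 1), (stil (lst W fun i => (e i : ℕ))).length ≤ S := by
    intro e
    refine (stil_count ℓ _ fun u hu => (hCl e u hu).1).2.trans ?_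
    rw [hS]
    refine (Nat.pow_le_pow_left (Nat.pow_le_pow_right (by omega)
      (Nat.mul_le_mul_right ℓ (hlen e))) _).trans ?_
    exact Nat.pow_le_pow_right (Nat.one_le_pow _ _ (by omega)) (hlen e)
  have hval := val_eq (A := ℂ) hPD hρ W (fun u => ((mz u : ℝ) : ℂ)) (fun e => by
    have h1 := mz_prod (by positivity) _ (hCl e) (by
      have := Nat.mul_le_mul_right ℓ (hlen e)
      omega)
    rw [prod_lst] at h1
    have h2 := congrArg (fun y : ℝ => (y : ℂ)) h1
    push_cast at h2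
    rw [h2]
    generalize stil (lst W fun i => (e i : ℕ)) = T
    induction T with
    | nil => simp
    | cons a T ih => simp [ih])
  rw [hP0, mul_zero] at hval
  by_cases hz : ∃ y ∈ La D W, ∃ μ, cf P ρ W y μ ≠ 0
  · left
    refine ⟨La D W, cf P ρ W, ?_, fun y hy => ?_, fun y hy μ => ?_, hz, hval.symm⟩
    · rw [La]
      calc (univ.biUnion fun e : Fin r → Fin (D + 1) =>
            (stil (lst W fun i => (e i : ℕ))).toFinset).card ≤
          ∑ e : Fin r → Fin (D + 1), (stil (lst W fun i => (e i : ℕ))).toFinset.card :=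
            card_biUnion_le
        _ ≤ ∑ _e : Fin r → Fin (D + 1), S :=
            sum_le_sum fun e _ => (List.toFinset_card_le _).trans (hcnt e)
        _ = (D + 1) ^ r * S := by simp
    · rw [La, mem_biUnion] at hy
      obtain ⟨e, -, hy⟩ := hy
      rw [List.mem_toFinset] at hy
      have h1 := stil_Cl (by positivity) _ (hCl e) y hy
      have h2 := hlen e
      refine ⟨h1.1.trans (Nat.mul_le_mul_right _ h2), ⟨fun m hm => ⟨(h1.2.1 m hm).1, ?_⟩,
        h1.2.2⟩, ?_⟩
      · refine (h1.2.1 m hm).2.trans ?_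
        have h3 : (((lst W fun i => (e i : ℕ)).length : ℕ) : ℝ) ≤ ((r * D : ℕ) : ℝ) := by
          exact_mod_cast h2
        calc (((lst W fun i => (e i : ℕ)).length : ℕ) : ℝ) * (((K0 * (1 + k * κ) : ℕ) : ℝ) * N) ≤
            ((r * D : ℕ) : ℝ) * (((K0 * (1 + k * κ) : ℕ) : ℝ) * N) :=
              mul_le_mul_of_nonneg_right h3 (by positivity)
          _ = _ := by push_cast; ring
      · have h3 := stil_Hd (lst W fun i => (e i : ℕ)) (K := K0) (s := s) (fun u hu => by
          obtain ⟨i, rfl⟩ := mem_lst hu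
          exact ix_Hd s (hw i) (hK0 i)) y hy
        have h4 := Nat.mul_le_mul_right K0 h2
        refine ⟨fun a ha => Lt_mono h4 s (h3.1 a ha), fun a ha => ?_⟩
        rcases h3.2 a ha with h5 | h5
        · exact Or.inl (Lt_mono h4 s h5)
        · exact Or.inr (h5.trans h4)
    · -- heights
      have hCN : ∀ m, |((P.coeff m : ℤ) : ℝ)| ≤ |C| ^ N := fun m =>
        (hPC m).trans ((le_abs_self _).trans (abs_pow _ _).le)
      unfold cf
      push_cast
      calc |∑ e : Fin r → Fin (D + 1), (∑ m : Fin t → Fin (D + 1),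
            ((P.coeff (fx (Sum.elim m e)) : ℤ) : ℝ) * (ρ m μ : ℝ)) *
            (((stil (lst W fun i => (e i : ℕ))).countP (· = y) : ℕ) : ℝ)| ≤
          ∑ _e : Fin r → Fin (D + 1), (|C| ^ N * Sρ) * (S : ℝ) := by
            refine (abs_sum_le_sum_abs _ _).trans (sum_le_sum fun e _ => ?_)
            rw [abs_mul, Nat.abs_cast]
            refine mul_le_mul ?_ ?_ (Nat.cast_nonneg _) (by positivity)
            · refine (abs_sum_le_sum_abs _ _).trans ?_
              rw [hSρ, mul_sum]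
              refine sum_le_sum fun m _ => ?_
              rw [abs_mul]
              refine mul_le_mul (hCN _) ?_ (abs_nonneg _) (by positivity)
              exact single_le_sum (f := fun μ => |(ρ m μ : ℝ)|) (fun _ _ => abs_nonneg _)
                (mem_univ μ)
            · exact_mod_cast List.countP_le_length.trans (hcnt e)
        _ = ((D + 1) ^ r * S * Sρ) * |C| ^ N := by
            rw [sum_const, card_univ, Fintype.card_fun, Fintype.card_fin, Fintype.card_fin,
              nsmul_eq_mul]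
            push_cast
            ring
        _ ≤ C1 * (1 + |C|) ^ N := by
            refine mul_le_mul (by rw [hC1]; linarith) ?_ (by positivity) (by linarith)
            exact pow_le_pow_left₀ hC0 (by linarith) _
        _ ≤ C1 ^ N * (1 + |C|) ^ N := by
            refine mul_le_mul_of_nonneg_right ?_ (by positivity)
            exact le_self_pow₀ hC11 (by omega)
        _ = (C1 * (1 + |C|)) ^ N := (mul_pow _ _ _).symm
  · right
    push Not at hz
    intro A _ _ y Z hy hZ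
    have hAd : ∀ i, W i = [] ∨ Ad (W i) := fun i =>
      ix_Ad (fun j => le_trans (by omega) (hs j).1) (hw i)
    have hρA : ∀ m : Fin t → Fin (D + 1),
        (Δ : A) * ∏ j, y j ^ ((m j : Fin (D + 1)) : ℕ) =
        ∑ μ, (ρ m μ : A) * ∏ j, y j ^ ((g μ j : Fin (D + 1)) : ℕ) := by
      intro m
      have h1 := hy ((Δ : MvPolynomial (Fin t) ℤ) * ∏ j, MvPolynomial.X j ^ ((m j : Fin (D + 1)) : ℕ) -
        ∑ μ, (ρ m μ : MvPolynomial (Fin t) ℤ) *
          ∏ j, MvPolynomial.X j ^ ((g μ j : Fin (D + 1)) : ℕ)) (by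
        simp only [map_sub, map_mul, map_natCast, map_prod, map_pow, MvPolynomial.aeval_X, map_sum,
          map_intCast]
        rw [hρ m, sub_self])
      simp only [map_sub, map_mul, map_natCast, map_prod, map_pow, MvPolynomial.aeval_X, map_sum,
          map_intCast] at h1
      exact sub_eq_zero.1 h1
    have hval2 := val_eq (A := A) hPD hρA W (ex Z) (fun e => by
      rw [← prod_lst]
      exact prod_ex' hZ _ fun u hu => by
        obtain ⟨i, rfl⟩ := mem_lst hu
        exact hAd i)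
    rw [sum_eq_zero fun y hy => by simp [hz y hy]] at hval2
    have h2 : (Δ : A) = algebraMap ℚ A (Δ : ℚ) := (map_natCast _ _).symm
    have h3 : (Δ : ℚ) ≠ 0 := by exact_mod_cast hΔ
    calc _ = algebraMap ℚ A ((Δ : ℚ)⁻¹) * ((Δ : A) * MvPolynomial.aeval
          (Sum.elim y fun i => ex Z (W i)) P) := by
          rw [h2, ← mul_assoc, ← map_mul, inv_mul_cancel₀ h3, map_one, one_mul]
      _ = 0 := by rw [hval2, mul_zero]

end Pool.Agent.X90.DC
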